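import Pool.Agent.SepAdd.Dbl

/-!
# The Balog-Szemerédi-Gowers theorem
-/

set_option autoImplicit false

open Finset

namespace SepAdd

open Classical in
/-- The number of elements of `s` with value `g`. -/
noncomputable def cnt {α G : Type*} (s : Finset α) (w : α → G) (g : G) : ℕ := #{x ∈ s | w x = g}

open Classical in
/-- Composing representations through the points of `U`. -/
lemma cnt_diff {α G : Type*} [AddCommGroup G] (s : Finset α) (w : α → G) (x x' : G)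
    (U : Finset G) {a : ℝ} (ha : 0 ≤ a) (h1 : ∀ u ∈ U, a ≤ cnt s w (x - u))
    (h2 : ∀ u ∈ U, a ≤ cnt s w (x' - u)) :
    (#U : ℝ) * a ^ 2 ≤ cnt (s ×ˢ s) (fun p => w p.1 - w p.2) (x - x') := by
  have h3 : ∑ u ∈ U, cnt s w (x - u) * cnt s w (x' - u) ≤
      cnt (s ×ˢ s) (fun p => w p.1 - w p.2) (x - x') := by
    unfold cnt
    calc ∑ u ∈ U, #{y ∈ s | w y = x - u} * #{y ∈ s | w y = x' - u}
        = ∑ u ∈ U, #({y ∈ s | w y = x - u} ×ˢ {y ∈ s | w y = x' - u}) := by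
          apply Finset.sum_congr rfl
          intro u _
          rw [Finset.card_product]
      _ = #(U.biUnion fun u => {y ∈ s | w y = x - u} ×ˢ {y ∈ s | w y = x' - u}) := by
          rw [Finset.card_biUnion]
          intro u _ v _ huv
          show Disjoint ({y ∈ s | w y = x - u} ×ˢ {y ∈ s | w y = x' - u})
            ({y ∈ s | w y = x - v} ×ˢ {y ∈ s | w y = x' - v})
          rw [Finset.disjoint_left]
          intro p hp hq
          rw [Finset.mem_product, Finset.mem_filter, Finset.mem_filter] at hp hq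
          exact huv (sub_right_injective (hp.1.2.symm.trans hq.1.2))
      _ ≤ _ := by
          apply Finset.card_le_card
          intro p hp
          rw [Finset.mem_biUnion] at hp
          obtain ⟨u, -, hu⟩ := hp
          rw [Finset.mem_product, Finset.mem_filter, Finset.mem_filter] at hu
          rw [Finset.mem_filter, Finset.mem_product]
          refine ⟨⟨hu.1.1, hu.2.1⟩, ?_⟩
          show w p.1 - w p.2 = x - x'
          rw [hu.1.2, hu.2.2]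
          abel
  have h4 : ((∑ u ∈ U, cnt s w (x - u) * cnt s w (x' - u) : ℕ) : ℝ) ≤
      cnt (s ×ˢ s) (fun p => w p.1 - w p.2) (x - x') := by exact_mod_cast h3
  refine le_trans ?_ h4
  push_cast
  calc (#U : ℝ) * a ^ 2 = ∑ u ∈ U, a ^ 2 := by rw [Finset.sum_const, nsmul_eq_mul]
    _ ≤ _ := by
        apply Finset.sum_le_sum
        intro u hu
        rw [sq]
        exact mul_le_mul (h1 u hu) (h2 u hu) ha (by positivity)

lemma cnt_le {α G : Type*} (s : Finset α) (w : α → G) (V : Finset G) {a : ℝ}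
    (h : ∀ v ∈ V, a ≤ cnt s w v) : (#V : ℝ) * a ≤ #s := by
  classical
  have h1 : ∑ v ∈ V, cnt s w v ≤ #s := by
    unfold cnt
    rw [← Finset.card_biUnion]
    · exact Finset.card_le_card (Finset.biUnion_subset.2 fun v _ => Finset.filter_subset _ _)
    · intro u _ v _ huv
      show Disjoint ({x ∈ s | w x = u}) ({x ∈ s | w x = v})
      rw [Finset.disjoint_left]
      intro p hp hq
      rw [Finset.mem_filter] at hp hq
      exact huv (hp.2.symm.trans hq.2)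
  have h2 : ((∑ v ∈ V, cnt s w v : ℕ) : ℝ) ≤ #s := by exact_mod_cast h1
  refine le_trans ?_ h2
  push_cast
  calc (#V : ℝ) * a = ∑ v ∈ V, a := by rw [Finset.sum_const, nsmul_eq_mul]
    _ ≤ _ := Finset.sum_le_sum h

lemma alg1 (q n K : ℝ) : q * (n / (6 * K) * (n ^ 3 / (512 * K ^ 4)) ^ 2) =
    q * n ^ 7 / (6 * 2 ^ 18 * K ^ 9) := by
  rw [div_pow, div_mul_div_comm, mul_div_assoc']
  congr 1 <;> ring

lemma alg2 (n K : ℝ) : n ^ 3 / (512 * K ^ 4) = n / (128 * K ^ 2) * (n / (2 * K)) ^ 2 := by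
  rw [div_pow, div_mul_div_comm]
  congr 1 <;> ring

open Classical in
/-- Counting pairs by their first coordinate. -/
lemma card_pairs_fst {V : Type*} (U T : Finset V) (Q : V → V → Prop) :
    #{p ∈ U ×ˢ T | Q p.1 p.2} = ∑ x ∈ U, #{y ∈ T | Q x y} := by
  rw [Finset.card_eq_sum_card_fiberwise (f := fun p : V × V => p.1) (t := U)]
  · apply Finset.sum_congr rfl
    intro x hx
    refine Finset.card_bij' (fun p _ => p.2) (fun y _ => (x, y)) ?_ ?_ ?_ ?_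
    · intro p hp
      simp only [Finset.mem_filter, Finset.mem_product] at hp ⊢
      rw [← hp.2]
      exact ⟨hp.1.1.2, hp.1.2⟩
    · intro y hy
      simp only [Finset.mem_filter, Finset.mem_product] at hy ⊢
      exact ⟨⟨⟨hx, hy.1⟩, hy.2⟩, trivial⟩
    · intro p hp
      simp only [Finset.mem_filter] at hp
      exact Prod.ext hp.2.symm rfl
    · intro y _
      rfl
  · intro p hp
    rw [Finset.mem_coe, Finset.mem_filter, Finset.mem_product] at hp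
    exact hp.1.1

open Classical in
/-- Counting pairs by their second coordinate. -/
lemma card_pairs_snd {V : Type*} (U T : Finset V) (Q : V → V → Prop) :
    #{p ∈ U ×ˢ T | Q p.1 p.2} = ∑ y ∈ T, #{x ∈ U | Q x y} := by
  rw [Finset.card_eq_sum_card_fiberwise (f := fun p : V × V => p.2) (t := T)]
  · apply Finset.sum_congr rfl
    intro y hy
    refine Finset.card_bij' (fun p _ => p.1) (fun x _ => (x, y)) ?_ ?_ ?_ ?_
    · intro p hp
      simp only [Finset.mem_filter, Finset.mem_product] at hp ⊢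
      rw [← hp.2]
      exact ⟨hp.1.1.1, hp.1.2⟩
    · intro x hx
      simp only [Finset.mem_filter, Finset.mem_product] at hx ⊢
      exact ⟨⟨⟨hx.1, hy⟩, hx.2⟩, trivial⟩
    · intro p hp
      simp only [Finset.mem_filter] at hp
      exact Prod.ext rfl hp.2.symm
    · intro x _
      rfl
  · intro p hp
    rw [Finset.mem_coe, Finset.mem_filter, Finset.mem_product] at hp
    exact hp.1.2

open Classical in
/-- The sum of the squares of the degrees. -/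
lemma sum_sq_nb {V : Type*} (B : Finset V) (R : V → V → Prop) {n K : ℝ} (hn : n = (#B : ℝ))
    (hn0 : 0 < n) (hK0 : 0 < K) (hp : n ^ 2 ≤ 2 * K * #{p ∈ B ×ˢ B | R p.1 p.2}) :
    n ^ 3 ≤ 4 * K ^ 2 * ∑ y ∈ B, (#{x ∈ B | R x y} : ℝ) ^ 2 := by
  have h1 : (∑ y ∈ B, (#{x ∈ B | R x y} : ℝ)) ^ 2 ≤ n * ∑ y ∈ B, (#{x ∈ B | R x y} : ℝ) ^ 2 := by
    rw [hn]
    exact sq_sum_le_card_mul_sum_sq
  have hcard1 : (#{p ∈ B ×ˢ B | R p.1 p.2} : ℝ) = ∑ y ∈ B, (#{x ∈ B | R x y} : ℝ) := by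
    exact_mod_cast card_pairs_snd B B R
  rw [hcard1] at hp
  generalize (∑ y ∈ B, (#{x ∈ B | R x y} : ℝ)) = S1 at *
  generalize (∑ y ∈ B, (#{x ∈ B | R x y} : ℝ) ^ 2) = S2 at *
  have h2 : n * n ^ 3 ≤ n * (4 * K ^ 2 * S2) := by
    calc n * n ^ 3 = (n ^ 2) ^ 2 := by ring
      _ ≤ (2 * K * S1) ^ 2 := by gcongr
      _ = 4 * K ^ 2 * S1 ^ 2 := by ring
      _ ≤ 4 * K ^ 2 * (n * S2) := by gcongr
      _ = _ := by ring
  exact le_of_mul_le_mul_left h2 hn0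

open Classical in
/-- The number of bad pairs in the neighbourhoods. -/
lemma sum_bad_nb {V : Type*} (B : Finset V) (R bad : V → V → Prop) {n c : ℝ} (hn : n = (#B : ℝ))
    (hbad : ∀ x x', bad x x' → c * (#{y ∈ B | R x y ∧ R x' y} : ℝ) ≤ n) :
    c * ∑ y ∈ B, (#{p ∈ {x ∈ B | R x y} ×ˢ {x ∈ B | R x y} | bad p.1 p.2} : ℝ) ≤ n ^ 3 := by
  have h1 : ∑ y ∈ B, #{p ∈ {x ∈ B | R x y} ×ˢ {x ∈ B | R x y} | bad p.1 p.2} =
      ∑ p ∈ B ×ˢ B with bad p.1 p.2, #{y ∈ B | R p.1 y ∧ R p.2 y} := by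
    have h2 := Finset.sum_card_bipartiteAbove_eq_sum_card_bipartiteBelow
      (s := B) (t := (B ×ˢ B).filter fun p => bad p.1 p.2)
      (fun y p => R p.1 y ∧ R p.2 y)
    refine Eq.trans ?_ (h2.trans ?_)
    · apply Finset.sum_congr rfl
      intro y _
      congr 1
      ext p
      simp only [Finset.bipartiteAbove, Finset.mem_filter, Finset.mem_product]
      constructor
      · rintro ⟨⟨⟨h1, h2⟩, h3, h4⟩, h5⟩
        exact ⟨⟨⟨h1, h3⟩, h5⟩, h2, h4⟩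
      · rintro ⟨⟨⟨h1, h3⟩, h5⟩, h2, h4⟩
        exact ⟨⟨⟨h1, h2⟩, h3, h4⟩, h5⟩
    · apply Finset.sum_congr rfl
      intro p _
      rfl
  have h3 : (∑ y ∈ B, (#{p ∈ {x ∈ B | R x y} ×ˢ {x ∈ B | R x y} | bad p.1 p.2} : ℝ)) =
      ∑ p ∈ B ×ˢ B with bad p.1 p.2, (#{y ∈ B | R p.1 y ∧ R p.2 y} : ℝ) := by exact_mod_cast h1
  have hn0 : 0 ≤ n := by rw [hn]; positivity
  rw [h3, Finset.mul_sum]
  calc ∑ p ∈ B ×ˢ B with bad p.1 p.2, c * (#{y ∈ B | R p.1 y ∧ R p.2 y} : ℝ)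
      ≤ ∑ p ∈ B ×ˢ B with bad p.1 p.2, n := by
        apply Finset.sum_le_sum
        intro p hp
        exact hbad _ _ (Finset.mem_filter.1 hp).2
    _ = (#{p ∈ B ×ˢ B | bad p.1 p.2} : ℝ) * n := by rw [Finset.sum_const, nsmul_eq_mul]
    _ ≤ n ^ 2 * n := by
        apply mul_le_mul_of_nonneg_right _ hn0
        have h4 : #{p ∈ B ×ˢ B | bad p.1 p.2} ≤ #B * #B := by
          rw [← Finset.card_product]
          exact Finset.card_filter_le _ _
        have h5 : (#{p ∈ B ×ˢ B | bad p.1 p.2} : ℝ) ≤ (#B : ℝ) * #B := by exact_mod_cast h4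
        have h6 : n ^ 2 = (#B : ℝ) * #B := by rw [hn]; ring
        exact h5.trans h6.ge
    _ = n ^ 3 := by ring

open Classical in
/-- A large subset in which all elements have few bad partners. -/
lemma exists_few_bad {V : Type*} (U : Finset V) (bad : V → V → Prop)
    (hbad : 16 * (#{p ∈ U ×ˢ U | bad p.1 p.2} : ℝ) ≤ (#U : ℝ) ^ 2) (hU : U.Nonempty) :
    ∃ B' ⊆ U, 3 / 4 * (#U : ℝ) ≤ #B' ∧ ∀ x ∈ B', 4 * (#{x' ∈ U | bad x x'} : ℝ) ≤ #U := by
  set u : ℝ := (#U : ℝ) with hu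
  have hu0 : 0 < u := by
    rw [hu]
    exact_mod_cast Finset.card_pos.2 hU
  refine ⟨{x ∈ U | 4 * (#{x' ∈ U | bad x x'} : ℝ) ≤ u}, Finset.filter_subset _ _, ?_,
    fun x hx => (Finset.mem_filter.1 hx).2⟩
  have hrest : (#{x ∈ U | ¬ 4 * (#{x' ∈ U | bad x x'} : ℝ) ≤ u} : ℝ) * (u / 4) ≤
      #{p ∈ U ×ˢ U | bad p.1 p.2} := by
    rw [card_pairs_fst]
    push_cast
    calc (#{x ∈ U | ¬ 4 * (#{x' ∈ U | bad x x'} : ℝ) ≤ u} : ℝ) * (u / 4)
        = ∑ x ∈ U with ¬ 4 * (#{x' ∈ U | bad x x'} : ℝ) ≤ u, u / 4 := by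
          rw [Finset.sum_const, nsmul_eq_mul]
      _ ≤ ∑ x ∈ U with ¬ 4 * (#{x' ∈ U | bad x x'} : ℝ) ≤ u, (#{x' ∈ U | bad x x'} : ℝ) := by
          apply Finset.sum_le_sum
          intro x hx
          have h2 := (Finset.mem_filter.1 hx).2
          push Not at h2
          linarith
      _ ≤ _ := Finset.sum_le_sum_of_subset_of_nonneg (Finset.filter_subset _ _)
          (fun _ _ _ => by positivity)
  have hsplit : u = (#{x ∈ U | 4 * (#{x' ∈ U | bad x x'} : ℝ) ≤ u} : ℝ) +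
      (#{x ∈ U | ¬ 4 * (#{x' ∈ U | bad x x'} : ℝ) ≤ u} : ℝ) := by
    have h0 := Finset.card_filter_add_card_filter_not (s := U)
      (fun x => 4 * (#{x' ∈ U | bad x x'} : ℝ) ≤ u)
    rw [← Nat.cast_add, h0]
  generalize (#{x ∈ U | ¬ 4 * (#{x' ∈ U | bad x x'} : ℝ) ≤ u} : ℝ) = X at *
  generalize (#{x ∈ U | 4 * (#{x' ∈ U | bad x x'} : ℝ) ≤ u} : ℝ) = Y at *
  have h1 : X * (u / 4) ≤ u / 4 * (u / 4) := by nlinarith
  have h2 := le_of_mul_le_mul_right h1 (by linarith)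
  linarith

open Classical in
/-- Paths of length four in a dense graph. -/
lemma graph_paths {V : Type*} {B : Finset V} (hB : B.Nonempty) (R : V → V → Prop) {n K : ℝ}
    (hn : n = (#B : ℝ)) (hK0 : 0 < K) (hp : n ^ 2 ≤ 2 * K * #{p ∈ B ×ˢ B | R p.1 p.2}) :
    ∃ B' ⊆ B, n ≤ 4 * K * #B' ∧ ∀ x ∈ B', ∀ x' ∈ B', ∃ W ⊆ B, n ≤ 6 * K * #W ∧
      ∀ w ∈ W, n ≤ 128 * K ^ 2 * #{y ∈ B | R x y ∧ R w y} ∧
        n ≤ 128 * K ^ 2 * #{y ∈ B | R x' y ∧ R w y} := by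
  have hn0 : 0 < n := by
    rw [hn]
    exact_mod_cast Finset.card_pos.2 hB
  obtain ⟨bad, hbad⟩ : ∃ bad : V → V → Prop, ∀ x x', bad x x' ↔
      128 * K ^ 2 * (#{y ∈ B | R x y ∧ R x' y} : ℝ) < n := ⟨fun x x' => _, fun x x' => Iff.rfl⟩
  have hsq := sum_sq_nb B R hn hn0 hK0 hp
  have hbs := sum_bad_nb B R bad hn (fun x x' h => ((hbad x x').1 h).le)
  obtain ⟨y₀, -, hy₀⟩ : ∃ y ∈ B, n ^ 2 / (8 * K ^ 2) ≤ (#{x ∈ B | R x y} : ℝ) ^ 2 -
      16 * (#{p ∈ {x ∈ B | R x y} ×ˢ {x ∈ B | R x y} | bad p.1 p.2} : ℝ) := by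
    apply Finset.exists_le_of_sum_le hB
    rw [Finset.sum_const, nsmul_eq_mul, Finset.sum_sub_distrib, ← Finset.mul_sum]
    have h1 : n * (n ^ 2 / (8 * K ^ 2)) = n ^ 3 / (4 * K ^ 2) - n ^ 3 / (8 * K ^ 2) := by
      field_simp
      ring
    have h2 : n ^ 3 / (4 * K ^ 2) ≤ ∑ y ∈ B, (#{x ∈ B | R x y} : ℝ) ^ 2 := by
      rw [div_le_iff₀ (by positivity)]
      linarith
    have h3 : 16 * ∑ y ∈ B, (#{p ∈ {x ∈ B | R x y} ×ˢ {x ∈ B | R x y} | bad p.1 p.2} : ℝ) ≤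
        n ^ 3 / (8 * K ^ 2) := by
      rw [le_div_iff₀ (by positivity)]
      linarith
    rw [← hn, h1]
    linarith
  obtain ⟨U, hU⟩ : ∃ U : Finset V, U = {x ∈ B | R x y₀} := ⟨_, rfl⟩
  rw [← hU] at hy₀
  have hUB : U ⊆ B := by rw [hU]; exact Finset.filter_subset _ _
  have hbad0 : (0 : ℝ) ≤ (#{p ∈ U ×ˢ U | bad p.1 p.2} : ℝ) := by positivity
  have hpos : 0 < n ^ 2 / (8 * K ^ 2) := by positivity
  have hu2 : 0 < (#U : ℝ) := by
    by_contra hcon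
    have h0 : (#U : ℝ) = 0 := le_antisymm (not_lt.1 hcon) (by positivity)
    rw [h0] at hy₀
    linarith
  have hUne : U.Nonempty := by
    rw [← Finset.card_pos]
    exact_mod_cast hu2
  have hu1 : n ≤ 3 * K * (#U : ℝ) := by
    have h1 : n ^ 2 / (8 * K ^ 2) ≤ (#U : ℝ) ^ 2 := by linarith
    rw [div_le_iff₀ (by positivity)] at h1
    have h2 : n ^ 2 ≤ (3 * K * (#U : ℝ)) ^ 2 := by
      have h3 : 0 ≤ (#U : ℝ) ^ 2 * K ^ 2 := by positivity
      calc n ^ 2 ≤ (#U : ℝ) ^ 2 * (8 * K ^ 2) := h1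
        _ = 8 * ((#U : ℝ) ^ 2 * K ^ 2) := by ring
        _ ≤ 9 * ((#U : ℝ) ^ 2 * K ^ 2) := by linarith
        _ = _ := by ring
    exact le_of_sq_le_sq h2 (by positivity)
  obtain ⟨B', hB'U, hB'card, hB'bad⟩ := exists_few_bad U bad (by linarith) hUne
  refine ⟨B', hB'U.trans hUB, ?_, ?_⟩
  · calc n ≤ 3 * K * (#U : ℝ) := hu1
      _ = 4 * K * (3 / 4 * (#U : ℝ)) := by ring
      _ ≤ 4 * K * #B' := by gcongr
  intro x hx x' hx'
  refine ⟨{z ∈ U | ¬ bad x z ∧ ¬ bad x' z}, (Finset.filter_subset _ _).trans hUB, ?_, ?_⟩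
  · have h3 : U ⊆ ({z ∈ U | ¬ bad x z ∧ ¬ bad x' z} ∪ {z ∈ U | bad x z}) ∪
        {z ∈ U | bad x' z} := by
      intro z hz
      simp only [Finset.mem_union, Finset.mem_filter]
      by_cases h1 : bad x z
      · exact Or.inl (Or.inr ⟨hz, h1⟩)
      · by_cases h2 : bad x' z
        · exact Or.inr ⟨hz, h2⟩
        · exact Or.inl (Or.inl ⟨hz, h1, h2⟩)
    have h2 : #U ≤ #{z ∈ U | ¬ bad x z ∧ ¬ bad x' z} + #{z ∈ U | bad x z} +
        #{z ∈ U | bad x' z} := by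
      calc #U ≤ _ := Finset.card_le_card h3
        _ ≤ _ := Finset.card_union_le _ _
        _ ≤ _ := Nat.add_le_add_right (Finset.card_union_le _ _) _
    have h4 : (#U : ℝ) ≤ (#{z ∈ U | ¬ bad x z ∧ ¬ bad x' z} : ℝ) + (#{z ∈ U | bad x z} : ℝ) +
        (#{z ∈ U | bad x' z} : ℝ) := by exact_mod_cast h2
    have h5 := hB'bad x hx
    have h6 := hB'bad x' hx'
    have h8 : (#U : ℝ) / 2 ≤ (#{z ∈ U | ¬ bad x z ∧ ¬ bad x' z} : ℝ) := by linarith
    calc n ≤ 3 * K * (#U : ℝ) := hu1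
      _ = 6 * K * ((#U : ℝ) / 2) := by ring
      _ ≤ _ := by gcongr
  · intro w hw
    have hw' := (Finset.mem_filter.1 hw).2
    rw [hbad, hbad, not_lt, not_lt] at hw'
    exact hw'

open Classical in
/-- Popular differences. -/
lemma popular_pairs {G : Type*} [AddCommGroup G] {B : Finset G} (hB : B.Nonempty) {n K : ℝ}
    (hn : n = (#B : ℝ)) (hK : 1 ≤ K) (hE : n ^ 3 ≤ K * en B) :
    n ^ 2 ≤ 2 * K * #{p ∈ B ×ˢ B | n ≤ 2 * K * (rep B (p.1 - p.2) : ℝ)} := by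
  have hn0 : 0 < n := by
    rw [hn]
    exact_mod_cast Finset.card_pos.2 hB
  have hK0 : 0 < K := by linarith
  have h1 : (en B : ℝ) ≤ (#{p ∈ B ×ˢ B | n ≤ 2 * K * (rep B (p.1 - p.2) : ℝ)} : ℝ) * n +
      n ^ 2 * (n / (2 * K)) := by
    rw [en_eq_sum]
    push_cast
    rw [← Finset.sum_filter_add_sum_filter_not (B ×ˢ B)
      (fun p => n ≤ 2 * K * (rep B (p.1 - p.2) : ℝ))]
    apply add_le_add
    · rw [← nsmul_eq_mul, ← Finset.sum_const]
      apply Finset.sum_le_sum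
      intro p _
      rw [hn]
      exact_mod_cast rep_le B _
    · calc ∑ p ∈ B ×ˢ B with ¬ n ≤ 2 * K * (rep B (p.1 - p.2) : ℝ), (rep B (p.1 - p.2) : ℝ)
          ≤ ∑ p ∈ B ×ˢ B with ¬ n ≤ 2 * K * (rep B (p.1 - p.2) : ℝ), n / (2 * K) := by
            apply Finset.sum_le_sum
            intro p hp
            have h2 := (Finset.mem_filter.1 hp).2
            push Not at h2
            rw [le_div_iff₀ (by positivity)]
            linarith
        _ = (#{p ∈ B ×ˢ B | ¬ n ≤ 2 * K * (rep B (p.1 - p.2) : ℝ)} : ℝ) * (n / (2 * K)) := by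
            rw [Finset.sum_const, nsmul_eq_mul]
        _ ≤ n ^ 2 * (n / (2 * K)) := by
            apply mul_le_mul_of_nonneg_right _ (by positivity)
            have h3 : #{p ∈ B ×ˢ B | ¬ n ≤ 2 * K * (rep B (p.1 - p.2) : ℝ)} ≤ #B * #B := by
              rw [← Finset.card_product]
              exact Finset.card_filter_le _ _
            have h4 : (#{p ∈ B ×ˢ B | ¬ n ≤ 2 * K * (rep B (p.1 - p.2) : ℝ)} : ℝ) ≤
                (#B : ℝ) * #B := by exact_mod_cast h3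
            have h6 : n ^ 2 = (#B : ℝ) * #B := by rw [hn]; ring
            exact h4.trans h6.ge
  generalize (#{p ∈ B ×ˢ B | n ≤ 2 * K * (rep B (p.1 - p.2) : ℝ)} : ℝ) = X at *
  have h5 : n ^ 3 ≤ K * (X * n + n ^ 2 * (n / (2 * K))) := hE.trans (by gcongr)
  have h6 : K * (X * n + n ^ 2 * (n / (2 * K))) = n * (K * X) + n ^ 3 / 2 := by field_simp
  rw [h6] at h5
  have h7 : n * n ^ 2 ≤ n * (2 * K * X) := by nlinarith
  exact le_of_mul_le_mul_left h7 hn0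

open Classical in
theorem bsg {G : Type*} [AddCommGroup G] {B : Finset G} (hB : B.Nonempty) {K : ℝ} (hK : 1 ≤ K)
    (hE : (B.card : ℝ) ^ 3 ≤ K * en B) :
    ∃ B' ⊆ B, (B.card : ℝ) ≤ 4 * K * B'.card ∧
      (dd B' : ℝ) ≤ 6 * 2 ^ 18 * K ^ 9 * B.card := by
  obtain ⟨n, hn⟩ : ∃ n : ℝ, n = (B.card : ℝ) := ⟨_, rfl⟩
  rw [← hn] at hE ⊢
  have hn0 : 0 < n := by
    rw [hn]
    exact_mod_cast Finset.card_pos.2 hB
  have hK0 : 0 < K := by linarith
  obtain ⟨R, hR⟩ : ∃ R : G → G → Prop, R = fun x y => n ≤ 2 * K * (rep B (x - y) : ℝ) := ⟨_, rfl⟩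
  have hpairs := popular_pairs hB hn hK hE
  obtain ⟨B', hB', hcard, hW⟩ := graph_paths hB R hn hK0 (by rw [hR]; exact hpairs)
  refine ⟨B', hB', hcard, ?_⟩
  set w1 : G × G → G := fun p => p.1 - p.2 with hw1
  set w2 : (G × G) × (G × G) → G := fun p => w1 p.1 - w1 p.2 with hw2
  have hrepcnt : ∀ d : G, rep B d = cnt (B ×ˢ B) w1 d := fun d => rfl
  have hpop : ∀ x y : G, R x y → n / (2 * K) ≤ cnt (B ×ˢ B) w1 (x - y) := by
    intro x y hxy
    rw [hR] at hxy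
    rw [← hrepcnt, div_le_iff₀ (by positivity)]
    linarith
  have hgood : ∀ x w : G, n ≤ 128 * K ^ 2 * (#{y ∈ B | R x y ∧ R w y} : ℝ) →
      n ^ 3 / (512 * K ^ 4) ≤ cnt ((B ×ˢ B) ×ˢ (B ×ˢ B)) w2 (x - w) := by
    intro x w hxw
    have h1 := cnt_diff (B ×ˢ B) w1 x w {y ∈ B | R x y ∧ R w y} (a := n / (2 * K)) (by positivity)
      (fun y hy => hpop _ _ (Finset.mem_filter.1 hy).2.1)
      (fun y hy => hpop _ _ (Finset.mem_filter.1 hy).2.2)
    refine le_trans ?_ h1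
    have h3 : n / (128 * K ^ 2) ≤ (#{y ∈ B | R x y ∧ R w y} : ℝ) := by
      rw [div_le_iff₀ (by positivity)]
      linarith
    rw [alg2]
    exact mul_le_mul_of_nonneg_right h3 (by positivity)
  have hmany : ∀ v ∈ (B' ×ˢ B').image (fun p => p.1 - p.2),
      n / (6 * K) * (n ^ 3 / (512 * K ^ 4)) ^ 2 ≤
        cnt (((B ×ˢ B) ×ˢ (B ×ˢ B)) ×ˢ ((B ×ˢ B) ×ˢ (B ×ˢ B))) (fun p => w2 p.1 - w2 p.2) v := by
    intro v hv
    obtain ⟨p, hp, rfl⟩ := Finset.mem_image.1 hv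
    rw [Finset.mem_product] at hp
    obtain ⟨W, -, hWcard, hWp⟩ := hW p.1 hp.1 p.2 hp.2
    have h1 := cnt_diff ((B ×ˢ B) ×ˢ (B ×ˢ B)) w2 p.1 p.2 W
      (a := n ^ 3 / (512 * K ^ 4)) (by positivity)
      (fun z hz => hgood _ _ (hWp z hz).1) (fun z hz => hgood _ _ (hWp z hz).2)
    refine le_trans ?_ h1
    have h7 : n / (6 * K) ≤ (#W : ℝ) := by
      rw [div_le_iff₀ (by positivity)]
      linarith
    exact mul_le_mul_of_nonneg_right h7 (by positivity)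
  have hfin := cnt_le (((B ×ˢ B) ×ˢ (B ×ˢ B)) ×ˢ ((B ×ˢ B) ×ˢ (B ×ˢ B)))
    (fun p => w2 p.1 - w2 p.2) ((B' ×ˢ B').image (fun p => p.1 - p.2)) hmany
  have hcardS : ((#(((B ×ˢ B) ×ˢ (B ×ˢ B)) ×ˢ ((B ×ˢ B) ×ˢ (B ×ˢ B))) : ℕ) : ℝ) = n ^ 8 := by
    rw [Finset.card_product, Finset.card_product, Finset.card_product]
    push_cast
    rw [← hn]
    ring
  rw [hcardS] at hfin
  have hdd : (dd B' : ℝ) = (#((B' ×ˢ B').image (fun p => p.1 - p.2)) : ℝ) := rfl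
  rw [← hdd] at hfin
  clear hcardS hmany hgood hpop hrepcnt hW hpairs
  generalize (dd B' : ℝ) = q at *
  rw [alg1, div_le_iff₀ (by positivity)] at hfin
  have h2 : q * n ^ 7 ≤ (6 * 2 ^ 18 * K ^ 9 * n) * n ^ 7 := by
    calc q * n ^ 7 ≤ n ^ 8 * (6 * 2 ^ 18 * K ^ 9) := hfin
      _ = _ := by ring
  exact le_of_mul_le_mul_right h2 (by positivity)

end SepAdd
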