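import Pool.Agent.SepAdd.Defs

/-!
# The set of points with a given difference is covered by few small sets
-/

set_option autoImplicit false

open Finset ComplexConjugate

namespace SepAdd

lemma sep_one {A : Finset ℂ} (hA : Sep A) {x y : ℂ} (hx : x ∈ A) (hy : y ∈ A) (h : x ≠ y) :
    1 ≤ ‖x - y‖ := by
  have h3 := hA x hx y hy x hx x hx (by rw [dist_self]; exact dist_ne_zero.2 h)
  rw [dist_self, sub_zero, abs_of_nonneg dist_nonneg, dist_eq_norm] at h3
  exact h3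

lemma eq_of_close {A : Finset ℂ} (hA : Sep A) {p q r s : ℂ} (hp : p ∈ A) (hq : q ∈ A)
    (hr : r ∈ A) (hs : s ∈ A) (h : |dist p q ^ 2 - dist r s ^ 2| < dist r s) :
    dist p q = dist r s := by
  by_contra hne
  have h1 := hA p hp q hq r hr s hs hne
  have h2 : dist p q ^ 2 - dist r s ^ 2 = (dist p q - dist r s) * (dist p q + dist r s) := by ring
  have h3 : 0 ≤ dist p q := dist_nonneg
  have h4 : 0 ≤ dist r s := dist_nonneg
  rw [h2, abs_mul, abs_of_nonneg (add_nonneg h3 h4)] at h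
  nlinarith

/-- the scalar product of the plane -/
def ip (z w : ℂ) : ℝ := z.re * w.re + z.im * w.im

lemma norm_sq_eq (z : ℂ) : ‖z‖ ^ 2 = z.re ^ 2 + z.im ^ 2 := by
  rw [Complex.sq_norm, Complex.normSq_apply]
  ring

lemma abs_ip_le (z w : ℂ) : |ip z w| ≤ ‖z‖ * ‖w‖ := by
  apply abs_le_of_sq_le_sq _ (by positivity)
  rw [mul_pow, norm_sq_eq, norm_sq_eq, ip]
  nlinarith [sq_nonneg (z.re * w.im - z.im * w.re)]

lemma geo {A : Finset ℂ} (hA : Sep A) {a a' b b' d : ℂ} (ha : a ∈ A) (ha' : a' ∈ A) (hb : b ∈ A)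
    (hb' : b' ∈ A) (haa : a' ≠ a) (hbb : b' ≠ b) (h1 : ‖a' - a - d‖ ≤ 1 / 32)
    (h2 : ‖b' - b - d‖ ≤ 1 / 32) (h3 : |ip (a - b) d| ≤ ‖d‖ ^ 2 / 2) : ‖a - b‖ < 4 * ‖d‖ ^ 2 := by
  by_contra hcon
  push Not at hcon
  set ρ := ‖d‖ with hρ
  set e := a - b with he
  set E := ‖e‖ with hE
  set g := a' - a with hg
  set f := b' - b with hf
  have hg1 : 1 ≤ ‖g‖ := sep_one hA ha' ha haa
  have hf1 : 1 ≤ ‖f‖ := sep_one hA hb' hb hbb
  have hgρ : ‖g‖ ≤ ρ + 1 / 32 := by
    have := norm_le_norm_add_norm_sub' g d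
    linarith
  have hfρ : ‖f‖ ≤ ρ + 1 / 32 := by
    have := norm_le_norm_add_norm_sub' f d
    linarith
  have hρ1 : 31 / 32 ≤ ρ := by linarith
  have hsq : (ρ + 1 / 32) ^ 2 ≤ 107 / 100 * ρ ^ 2 := by nlinarith
  have hg2 : ‖g‖ ^ 2 ≤ 107 / 100 * ρ ^ 2 := le_trans (by gcongr) hsq
  have hf2 : ‖f‖ ^ 2 ≤ 107 / 100 * ρ ^ 2 := le_trans (by gcongr) hsq
  have hE0 : 0 < E := by nlinarith
  -- scalar products
  have hip : ∀ w : ℂ, ‖w - d‖ ≤ 1 / 32 → |ip e w| ≤ ρ ^ 2 / 2 + E / 32 := by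
    intro w hw
    have e1 : ip e w = ip e d + ip e (w - d) := by
      simp only [ip, Complex.sub_re, Complex.sub_im]; ring
    have e2 := abs_ip_le e (w - d)
    have e3 : ‖e‖ * ‖w - d‖ ≤ E * (1 / 32) := by gcongr
    rw [e1]
    have := abs_add_le (ip e d) (ip e (w - d))
    linarith
  have hig := hip g h1
  have hif := hip f h2
  -- first equality
  have q1 : dist a' b = dist a b := by
    apply eq_of_close hA ha' hb ha hb
    have e0 : a' - b = e + g := by rw [he, hg]; ring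
    have e1 : ‖e + g‖ ^ 2 - ‖e‖ ^ 2 = 2 * ip e g + ‖g‖ ^ 2 := by
      rw [norm_sq_eq, norm_sq_eq, norm_sq_eq, ip, Complex.add_re, Complex.add_im]; ring
    rw [dist_eq_norm, dist_eq_norm, e0, ← he, e1, abs_lt]
    have := abs_le.1 hig
    have hgn : 0 ≤ ‖g‖ ^ 2 := by positivity
    constructor <;> nlinarith
  have q2 : dist a b' = dist a b := by
    apply eq_of_close hA ha hb' ha hb
    have e0 : a - b' = e - f := by rw [he, hf]; ring
    have e1 : ‖e - f‖ ^ 2 - ‖e‖ ^ 2 = - (2 * ip e f) + ‖f‖ ^ 2 := by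
      rw [norm_sq_eq, norm_sq_eq, norm_sq_eq, ip, Complex.sub_re, Complex.sub_im]; ring
    rw [dist_eq_norm, dist_eq_norm, e0, ← he, e1, abs_lt]
    have := abs_le.1 hif
    have hfn : 0 ≤ ‖f‖ ^ 2 := by positivity
    constructor <;> nlinarith
  have q1' : 2 * ip e g + ‖g‖ ^ 2 = 0 := by
    have e0 : a' - b = e + g := by rw [he, hg]; ring
    have e1 : ‖e + g‖ ^ 2 - ‖e‖ ^ 2 = 2 * ip e g + ‖g‖ ^ 2 := by
      rw [norm_sq_eq, norm_sq_eq, norm_sq_eq, ip, Complex.add_re, Complex.add_im]; ring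
    rw [dist_eq_norm, dist_eq_norm, e0, ← he] at q1
    rw [← e1, q1, sub_self]
  have q2' : - (2 * ip e f) + ‖f‖ ^ 2 = 0 := by
    have e0 : a - b' = e - f := by rw [he, hf]; ring
    have e1 : ‖e - f‖ ^ 2 - ‖e‖ ^ 2 = - (2 * ip e f) + ‖f‖ ^ 2 := by
      rw [norm_sq_eq, norm_sq_eq, norm_sq_eq, ip, Complex.sub_re, Complex.sub_im]; ring
    rw [dist_eq_norm, dist_eq_norm, e0, ← he] at q2
    rw [← e1, q2, sub_self]
  have e3 : ‖e + g - f‖ ^ 2 - ‖e‖ ^ 2 = - (2 * ip g f) := by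
    have : ‖e + g - f‖ ^ 2 - ‖e‖ ^ 2 = (2 * ip e g + ‖g‖ ^ 2) + (- (2 * ip e f) + ‖f‖ ^ 2) -
        2 * ip g f := by
      simp only [norm_sq_eq, ip, Complex.sub_re, Complex.sub_im, Complex.add_re, Complex.add_im]
      ring
    rw [this, q1', q2']
    ring
  have e4 : a' - b' = e + g - f := by rw [he, hg, hf]; ring
  have hgf : |ip g f| ≤ 107 / 100 * ρ ^ 2 := by
    refine (abs_ip_le g f).trans ?_
    calc ‖g‖ * ‖f‖ ≤ (ρ + 1 / 32) * (ρ + 1 / 32) := by gcongr
      _ ≤ _ := by rw [← sq]; exact hsq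
  have q3 : dist a' b' = dist a b := by
    apply eq_of_close hA ha' hb' ha hb
    rw [dist_eq_norm, dist_eq_norm, e4, ← he, e3, abs_lt]
    have := abs_le.1 hgf
    constructor <;> nlinarith
  have e5 : ip g f = 0 := by
    rw [dist_eq_norm, dist_eq_norm, e4, ← he] at q3
    rw [q3, sub_self] at e3
    linarith
  -- but `g` and `f` are close
  have e6 : ip g f = ‖f‖ ^ 2 + ip (g - f) f := by
    simp only [norm_sq_eq, ip, Complex.sub_re, Complex.sub_im]
    ring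
  have e7 : ‖g - f‖ ≤ 1 / 16 := by
    have : g - f = (g - d) - (f - d) := by ring
    rw [this]
    refine (norm_sub_le _ _).trans ?_
    linarith
  have e8 := abs_ip_le (g - f) f
  have e9 : ‖g - f‖ * ‖f‖ ≤ 1 / 16 * ‖f‖ := by gcongr
  have e10 := (abs_le.1 e8).1
  have e11 : ‖f‖ ≤ ‖f‖ ^ 2 := by nlinarith
  linarith

lemma card_le_mul_image {α β : Type*} [DecidableEq β] (s : Finset α) (f : α → β) (M : ℝ)
    (h : ∀ b ∈ s.image f, ((s.filter fun x => f x = b).card : ℝ) ≤ M) :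
    (s.card : ℝ) ≤ (s.image f).card * M := by
  rw [Finset.card_eq_sum_card_image f s]
  push_cast
  calc ∑ b ∈ s.image f, ((s.filter fun x => f x = b).card : ℝ) ≤ ∑ b ∈ s.image f, M :=
        Finset.sum_le_sum h
    _ = _ := by rw [Finset.sum_const, nsmul_eq_mul]

/-- The integer parts of the values of a function with oscillation at most `L`. -/
lemma card_image_floor_le {α : Type*} (s : Finset α) (f : α → ℝ) {L : ℝ} (hL : 0 ≤ L)
    (h : ∀ x ∈ s, ∀ y ∈ s, |f x - f y| ≤ L) : ((s.image fun x => ⌊f x⌋).card : ℝ) ≤ L + 2 := by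
  rcases s.eq_empty_or_nonempty with rfl | hs
  · simp; linarith
  obtain ⟨x₀, hx₀, hmin⟩ := Finset.exists_min_image s f hs
  have hsub : (s.image fun x => ⌊f x⌋) ⊆ Finset.Icc ⌊f x₀⌋ ⌊f x₀ + L⌋ := by
    intro k hk
    obtain ⟨x, hx, rfl⟩ := Finset.mem_image.1 hk
    rw [Finset.mem_Icc]
    constructor
    · exact Int.floor_mono (hmin x hx)
    · apply Int.floor_mono
      have := (abs_le.1 (h x hx x₀ hx₀)).2
      linarith
  have h1 := Finset.card_le_card hsub
  rw [Int.card_Icc] at h1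
  have h2 : ⌊f x₀⌋ ≤ ⌊f x₀ + L⌋ := Int.floor_mono (by linarith)
  have h3 : (((⌊f x₀ + L⌋ + 1 - ⌊f x₀⌋).toNat : ℕ) : ℝ) = (⌊f x₀ + L⌋ : ℝ) + 1 - ⌊f x₀⌋ := by
    have : (((⌊f x₀ + L⌋ + 1 - ⌊f x₀⌋).toNat : ℕ) : ℤ) = ⌊f x₀ + L⌋ + 1 - ⌊f x₀⌋ :=
      Int.toNat_of_nonneg (by omega)
    exact_mod_cast this
  have h4 : ((s.image fun x => ⌊f x⌋).card : ℝ) ≤
      (((⌊f x₀ + L⌋ + 1 - ⌊f x₀⌋).toNat : ℕ) : ℝ) := by exact_mod_cast h1
  have h5 := Int.floor_le (f x₀ + L)
  have h6 := Int.lt_floor_add_one (f x₀)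
  linarith

theorem cover {A : Finset ℂ} (hA : Sep A) {ψ : ℂ → ℂ} (hψ : ∀ a ∈ A, ‖ψ a - a‖ ≤ 1 / 64) {D : ℝ}
    (hD : ∀ a ∈ A, ∀ b ∈ A, dist a b ≤ D) (hD1 : 1 ≤ D) {d : ℂ} (hd : d ≠ 0) {M : ℝ}
    (hM : ∀ S ⊆ A.image ψ, (∀ x ∈ S, ∀ y ∈ S, ‖x - y‖ < ‖d‖ / 2) → (S.card : ℝ) ≤ M) :
    (rep (A.image ψ) d : ℝ) ≤ 300 * D * M := by
  classical
  set B := A.image ψ with hB
  have hM0 : 0 ≤ M := by simpa using hM ∅ (by simp) (by simp)
  -- the set of first ends
  set Y : Finset ℂ := B.filter fun y => y + d ∈ B with hY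
  have hrep : rep B d ≤ Y.card := by
    unfold rep
    apply Finset.card_le_card_of_injOn (fun p => p.2)
    · intro p hp
      rw [Finset.mem_coe, Finset.mem_filter, Finset.mem_product] at hp
      rw [hY, Finset.mem_coe, Finset.mem_filter]
      refine ⟨hp.1.2, ?_⟩
      rw [← hp.2]
      have : p.2 + (p.1 - p.2) = p.1 := by ring
      rw [this]
      exact hp.1.1
    · intro p hp q hq hpq
      rw [Finset.mem_coe, Finset.mem_filter] at hp hq
      have hpq' : p.2 = q.2 := hpq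
      have : p.1 = q.1 := by
        have e1 := hp.2
        have e2 := hq.2
        rw [hpq'] at e1
        exact sub_left_injective (e1.trans e2.symm)
      exact Prod.ext this hpq'
  have hrep' : (rep B d : ℝ) ≤ Y.card := by exact_mod_cast hrep
  rcases Y.eq_empty_or_nonempty with hYe | hYne
  · rw [hYe] at hrep'
    simp only [Finset.card_empty, Nat.cast_zero] at hrep'
    exact hrep'.trans (by positivity)
  set ρ := ‖d‖ with hρ
  have hρ0 : 0 < ρ := norm_pos_iff.2 hd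
  -- pulling back
  have hpull : ∀ y ∈ Y, ∃ a ∈ A, ∃ a' ∈ A, ψ a = y ∧ a' ≠ a ∧ ‖a' - a - d‖ ≤ 1 / 32 := by
    intro y hy
    rw [hY, Finset.mem_filter] at hy
    obtain ⟨a, ha, hay⟩ := Finset.mem_image.1 hy.1
    obtain ⟨a', ha', hay'⟩ := Finset.mem_image.1 hy.2
    refine ⟨a, ha, a', ha', hay, ?_, ?_⟩
    · rintro rfl
      rw [hay] at hay'
      exact hd (by simpa using hay'.symm)
    · have e1 : a' - a - d = (ψ a - a) - (ψ a' - a') := by rw [hay, hay']; ring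
      rw [e1]
      refine (norm_sub_le _ _).trans ?_
      have := hψ a ha
      have := hψ a' ha'
      linarith
  have hρ1 : 31 / 32 ≤ ρ ∧ ρ ≤ D + 1 / 32 := by
    obtain ⟨y, hy⟩ := hYne
    obtain ⟨a, ha, a', ha', -, hne, hclose⟩ := hpull y hy
    have h1 := sep_one hA ha' ha hne
    have h2 := norm_le_norm_add_norm_sub' (a' - a) d
    have h4 := hD a' ha' a ha
    rw [dist_eq_norm] at h4
    constructor
    · linarith
    · have h5 := norm_le_norm_add_norm_sub' d (a' - a)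
      rw [norm_sub_rev d] at h5
      linarith
  have hBdist : ∀ x ∈ B, ∀ y ∈ B, ‖x - y‖ ≤ D + 1 / 32 := by
    intro x hx y hy
    obtain ⟨a, ha, rfl⟩ := Finset.mem_image.1 hx
    obtain ⟨b, hb, rfl⟩ := Finset.mem_image.1 hy
    have e1 : ψ a - ψ b = (a - b) + ((ψ a - a) - (ψ b - b)) := by ring
    rw [e1]
    refine (norm_add_le _ _).trans ?_
    have h1 := hD a ha b hb
    rw [dist_eq_norm] at h1
    have h2 := norm_sub_le (ψ a - a) (ψ b - b)
    have := hψ a ha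
    have := hψ b hb
    linarith
  have hdn : ∀ z : ℂ, ‖4 * z / d‖ = 4 * ‖z‖ / ρ := by
    intro z
    rw [norm_div, norm_mul, ← hρ]
    norm_num
  -- points of one slab
  have hslab : ∀ x ∈ Y, ∀ y ∈ Y, |(4 * x / d).re - (4 * y / d).re| < 1 → ‖x - y‖ < 5 * ρ ^ 2 := by
    intro x hx y hy hxy
    obtain ⟨a, ha, a', ha', hax, hane, haclose⟩ := hpull x hx
    obtain ⟨b, hb, b', hb', hby, hbne, hbclose⟩ := hpull y hy
    have e0 : (x - y) - (a - b) = (ψ a - a) - (ψ b - b) := by rw [hax, hby]; ring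
    have e1 : ‖(x - y) - (a - b)‖ ≤ 1 / 32 := by
      rw [e0]
      refine (norm_sub_le _ _).trans ?_
      have := hψ a ha
      have := hψ b hb
      linarith
    have e2 : ip (x - y) d = ρ ^ 2 / 4 * ((4 * x / d).re - (4 * y / d).re) := by
      have : (4 * x / d).re - (4 * y / d).re = (4 * (x - y) / d).re := by
        rw [← Complex.sub_re]; congr 1; ring
      rw [this, Complex.div_re, Complex.normSq_eq_norm_sq, ← hρ]
      simp only [ip, Complex.mul_re, Complex.mul_im, Complex.re_ofNat, Complex.im_ofNat, zero_mul,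
        sub_zero, add_zero]
      field_simp
    have e3 : |ip (x - y) d| ≤ ρ ^ 2 / 4 := by
      rw [e2, abs_mul, abs_of_pos (by positivity : 0 < ρ ^ 2 / 4)]
      have : 0 < ρ ^ 2 / 4 := by positivity
      nlinarith
    have e4 : ip (a - b) d = ip (x - y) d - ip ((x - y) - (a - b)) d := by
      simp only [ip, Complex.sub_re, Complex.sub_im]
      ring
    have e5 := abs_ip_le ((x - y) - (a - b)) d
    have e6 : ‖(x - y) - (a - b)‖ * ‖d‖ ≤ 1 / 32 * ρ := by gcongr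
    have e7 : |ip (a - b) d| ≤ ‖d‖ ^ 2 / 2 := by
      rw [e4]
      have := abs_sub (ip (x - y) d) (ip ((x - y) - (a - b)) d)
      rw [← hρ]
      nlinarith [hρ1.1]
    have e8 := geo hA ha ha' hb hb' hane hbne haclose hbclose e7
    have e9 := norm_le_norm_add_norm_sub' (x - y) (a - b)
    rw [← hρ] at e8
    nlinarith [hρ1.1]
  -- cells
  have hfl : ∀ s t : ℝ, ⌊s⌋ = ⌊t⌋ → |s - t| < 1 := by
    intro s t hst
    exact Int.abs_sub_lt_one_of_floor_eq_floor hst
  have hYB : ∀ y ∈ Y, y ∈ B := fun y hy => (Finset.mem_filter.1 hy).1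
  have hcell : ∀ i j : ℤ, (((Y.filter fun y => ⌊(4 * y / d).re⌋ = i).filter
      fun y => ⌊(4 * y / d).im⌋ = j).card : ℝ) ≤ M := by
    intro i j
    apply hM
    · intro y hy
      rw [Finset.mem_filter, Finset.mem_filter] at hy
      exact hYB y hy.1.1
    · intro x hx y hy
      rw [Finset.mem_filter, Finset.mem_filter] at hx hy
      have h1 := hfl _ _ (hx.1.2.trans hy.1.2.symm)
      have h2 := hfl _ _ (hx.2.trans hy.2.symm)
      have h3 : ‖4 * (x - y) / d‖ ^ 2 < 2 := by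
        have e1 : 4 * (x - y) / d = 4 * x / d - 4 * y / d := by ring
        rw [e1, norm_sq_eq, Complex.sub_re, Complex.sub_im]
        have := abs_lt.1 h1
        have := abs_lt.1 h2
        nlinarith
      rw [hdn] at h3
      have h4 : 4 * ‖x - y‖ / ρ < 2 := by
        by_contra hcon
        push Not at hcon
        nlinarith
      rw [div_lt_iff₀ hρ0] at h4
      linarith
  have hrow : ∀ i ∈ Y.image (fun y => ⌊(4 * y / d).re⌋),
      ((Y.filter fun y => ⌊(4 * y / d).re⌋ = i).card : ℝ) ≤ (20 * ρ + 2) * M := by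
    intro i _
    refine (card_le_mul_image _ (fun y => ⌊(4 * y / d).im⌋) M fun j _ => hcell i j).trans ?_
    apply mul_le_mul_of_nonneg_right _ hM0
    apply card_image_floor_le _ _ (by positivity)
    intro x hx y hy
    rw [Finset.mem_filter] at hx hy
    have h1 := hslab x hx.1 y hy.1 (hfl _ _ (hx.2.trans hy.2.symm))
    have h2 : |(4 * x / d).im - (4 * y / d).im| ≤ ‖4 * (x - y) / d‖ := by
      have e1 : 4 * (x - y) / d = 4 * x / d - 4 * y / d := by ring
      rw [e1, ← Complex.sub_im]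
      exact Complex.abs_im_le_norm _
    rw [hdn] at h2
    refine h2.trans ?_
    rw [div_le_iff₀ hρ0]
    nlinarith
  have hall : (Y.card : ℝ) ≤ (4 * (D + 1 / 32) / ρ + 2) * ((20 * ρ + 2) * M) := by
    refine (card_le_mul_image _ (fun y => ⌊(4 * y / d).re⌋) _ hrow).trans ?_
    apply mul_le_mul_of_nonneg_right _ (by positivity)
    apply card_image_floor_le _ _ (by positivity)
    intro x hx y hy
    have h2 : |(4 * x / d).re - (4 * y / d).re| ≤ ‖4 * (x - y) / d‖ := by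
      have e1 : 4 * (x - y) / d = 4 * x / d - 4 * y / d := by ring
      rw [e1, ← Complex.sub_re]
      exact Complex.abs_re_le_norm _
    rw [hdn] at h2
    refine h2.trans ?_
    have := hBdist x (hYB x hx) y (hYB y hy)
    gcongr
  refine hrep'.trans (hall.trans ?_)
  have e1 : 4 * (D + 1 / 32) / ρ ≤ 5 * D := by
    rw [div_le_iff₀ hρ0]
    nlinarith [hρ1.1]
  have e2 : 4 * (D + 1 / 32) / ρ * ρ = 4 * (D + 1 / 32) := by field_simp
  have e3 : (4 * (D + 1 / 32) / ρ + 2) * (20 * ρ + 2) ≤ 300 * D := by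
    calc (4 * (D + 1 / 32) / ρ + 2) * (20 * ρ + 2)
        = 20 * (4 * (D + 1 / 32) / ρ * ρ) + 2 * (4 * (D + 1 / 32) / ρ) + 40 * ρ + 4 := by ring
      _ ≤ 20 * (4 * (D + 1 / 32)) + 2 * (5 * D) + 40 * (D + 1 / 32) + 4 := by
          rw [e2]; nlinarith [hρ1.2]
      _ ≤ 300 * D := by nlinarith
  calc (4 * (D + 1 / 32) / ρ + 2) * ((20 * ρ + 2) * M)
      = (4 * (D + 1 / 32) / ρ + 2) * (20 * ρ + 2) * M := by ring
    _ ≤ 300 * D * M := by gcongr

end SepAdd
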