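import Pool.Agent.SepAdd.Dbl

/-!
# Rounding to a grid: from approximate to exact additive energy
-/

set_option autoImplicit false

open Finset

namespace SepAdd

/-- rounding to the grid `ℤ² / 64` -/
noncomputable def rd (z : ℂ) : ℂ :=
  ⟨(round (64 * z.re) : ℝ) / 64, (round (64 * z.im) : ℝ) / 64⟩

theorem norm_rd_sub_le (z : ℂ) : ‖rd z - z‖ ≤ 1 / 64 := by
  have key : ∀ t : ℝ, |(round (64 * t) : ℝ) / 64 - t| ≤ 1 / 128 := by
    intro t
    have h := abs_sub_round (64 * t)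
    have e : (round (64 * t) : ℝ) / 64 - t = -((64 * t - round (64 * t)) / 64) := by ring
    rw [e, abs_neg, abs_div, abs_of_pos (by norm_num : (0 : ℝ) < 64)]
    linarith
  have h1 := Complex.norm_le_abs_re_add_abs_im (rd z - z)
  have h2 := key z.re
  have h3 := key z.im
  rw [Complex.sub_re, Complex.sub_im] at h1
  have e1 : (rd z).re = (round (64 * z.re) : ℝ) / 64 := rfl
  have e2 : (rd z).im = (round (64 * z.im) : ℝ) / 64 := rfl
  rw [e1, e2] at h1
  linarith

lemma rd_injOn {A : Finset ℂ} (hA : ∀ x ∈ A, ∀ y ∈ A, x ≠ y → 1 ≤ ‖x - y‖) :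
    Set.InjOn rd (A : Set ℂ) := by
  intro x hx y hy hxy
  by_contra hne
  have h1 := hA x hx y hy hne
  have e : x - y = (rd y - y) - (rd x - x) := by rw [hxy]; ring
  rw [e] at h1
  have h2 := norm_sub_le (rd y - y) (rd x - x)
  have h3 := norm_rd_sub_le x
  have h4 := norm_rd_sub_le y
  linarith

open Classical in
lemma sum_rep_comp {G : Type*} [AddCommGroup G] (B : Finset G) (g : G → ℕ) :
    ∑ p ∈ B ×ˢ B, g (p.1 - p.2) =
      ∑ v ∈ (B ×ˢ B).image (fun p => p.1 - p.2), rep B v * g v := by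
  rw [Finset.sum_comp g (fun p : G × G => p.1 - p.2)]
  rfl

open Classical in
/-- The additive energy is the largest value of the fourfold representation function. -/
lemma shifted_energy_le {G : Type*} [AddCommGroup G] (B : Finset G) (f : G) :
    #{q ∈ (B ×ˢ B) ×ˢ (B ×ˢ B) | q.1.1 + q.1.2 - (q.2.1 + q.2.2) = f} ≤ en B := by
  have h1 : #{q ∈ (B ×ˢ B) ×ˢ (B ×ˢ B) | q.1.1 + q.1.2 - (q.2.1 + q.2.2) = f} =
      ∑ p ∈ B ×ˢ B, rep B (f - (p.1 - p.2)) := by
    unfold rep
    rw [Finset.card_eq_sum_card_fiberwise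
      (f := fun x : (G × G) × (G × G) => (x.1.1, x.2.1)) (t := B ×ˢ B)]
    · apply Finset.sum_congr rfl
      intro p hp
      refine Finset.card_bij' (fun x _ => (x.1.2, x.2.2)) (fun q _ => ((p.1, q.1), (p.2, q.2)))
        ?_ ?_ ?_ ?_
      · intro x hx
        simp only [Finset.mem_filter, Finset.mem_product, Prod.ext_iff] at hx ⊢
        refine ⟨⟨hx.1.1.1.2, hx.1.1.2.2⟩, ?_⟩
        rw [← hx.2.1, ← hx.2.2, ← hx.1.2]
        abel
      · intro q hq
        simp only [Finset.mem_filter, Finset.mem_product] at hq hp ⊢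
        refine ⟨⟨⟨⟨hp.1, hq.1.1⟩, hp.2, hq.1.2⟩, ?_⟩, trivial⟩
        have e : p.1 + q.1 - (p.2 + q.2) = (p.1 - p.2) + (q.1 - q.2) := by abel
        rw [e, hq.2]
        abel
      · intro x hx
        simp only [Finset.mem_filter, Prod.ext_iff] at hx
        exact Prod.ext (Prod.ext hx.2.1.symm rfl) (Prod.ext hx.2.2.symm rfl)
      · intro q _
        rfl
    · intro x hx
      rw [Finset.mem_coe, Finset.mem_filter, Finset.mem_product, Finset.mem_product,
        Finset.mem_product] at hx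
      rw [Finset.mem_coe, Finset.mem_product]
      exact ⟨hx.1.1.1, hx.1.2.1⟩
  have h2 : #{q ∈ (B ×ˢ B) ×ˢ (B ×ˢ B) | q.1.1 + q.1.2 - (q.2.1 + q.2.2) = f} =
      ∑ v ∈ (B ×ˢ B).image (fun p => p.1 - p.2), rep B v * rep B (f - v) :=
    h1.trans (sum_rep_comp B (fun v => rep B (f - v)))
  have h3 : en B = ∑ v ∈ (B ×ˢ B).image (fun p => p.1 - p.2), rep B v * rep B v :=
    (en_eq_sum B).trans (sum_rep_comp B (fun v => rep B v))
  have h4 : ∑ v ∈ (B ×ˢ B).image (fun p => p.1 - p.2), rep B (f - v) * rep B (f - v) ≤ en B := by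
    rw [h3]
    have h5 : ∑ v ∈ (B ×ˢ B).image (fun p => p.1 - p.2), rep B (f - v) * rep B (f - v) =
        ∑ v ∈ ((B ×ˢ B).image (fun p => p.1 - p.2)).image (fun v => f - v), rep B v * rep B v := by
      refine (Finset.sum_image (f := fun v => rep B v * rep B v) ?_).symm
      intro x _ y _ hxy
      exact sub_right_injective hxy
    rw [h5]
    apply Finset.sum_le_sum_of_ne_zero
    intro v _ hv
    have hv' : rep B v ≠ 0 := fun h => hv (by rw [h, zero_mul])
    obtain ⟨p, hp⟩ := Finset.card_ne_zero.1 hv'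
    rw [Finset.mem_filter] at hp
    exact Finset.mem_image.2 ⟨p, hp.1, hp.2⟩
  have h6 : 2 * ∑ v ∈ (B ×ˢ B).image (fun p => p.1 - p.2), rep B v * rep B (f - v) ≤
      ∑ v ∈ (B ×ˢ B).image (fun p => p.1 - p.2), rep B v * rep B v +
      ∑ v ∈ (B ×ˢ B).image (fun p => p.1 - p.2), rep B (f - v) * rep B (f - v) := by
    rw [Finset.mul_sum, ← Finset.sum_add_distrib]
    apply Finset.sum_le_sum
    intro v _
    nlinarith [sq_nonneg ((rep B v : ℤ) - rep B (f - v)), two_mul_le_add_sq (rep B v) (rep B (f - v))]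
  rw [h2]
  rw [← h3] at h6
  omega

open Classical in
theorem approx_energy_le {A : Finset ℂ} (hA : ∀ x ∈ A, ∀ y ∈ A, x ≠ y → 1 ≤ ‖x - y‖) :
    #{x ∈ (A ×ˢ A) ×ˢ (A ×ˢ A) | ‖x.1.1 + x.1.2 - (x.2.1 + x.2.2)‖ ≤ 1} ≤
      20000 * en (A.image rd) := by
  have hinj := rd_injOn hA
  set S := {x ∈ (A ×ˢ A) ×ˢ (A ×ˢ A) | ‖x.1.1 + x.1.2 - (x.2.1 + x.2.2)‖ ≤ 1} with hS
  obtain ⟨F, hF⟩ : ∃ F : Finset (ℤ × ℤ), F = Finset.Icc (-68) 68 ×ˢ Finset.Icc (-68) 68 :=
    ⟨_, rfl⟩
  set k : (ℂ × ℂ) × (ℂ × ℂ) → ℤ × ℤ := fun x =>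
    (round (64 * x.1.1.re) + round (64 * x.1.2.re) - (round (64 * x.2.1.re) +
      round (64 * x.2.2.re)),
     round (64 * x.1.1.im) + round (64 * x.1.2.im) - (round (64 * x.2.1.im) +
      round (64 * x.2.2.im))) with hk
  have hre : ∀ x : (ℂ × ℂ) × (ℂ × ℂ), rd x.1.1 + rd x.1.2 - (rd x.2.1 + rd x.2.2) =
      ⟨((k x).1 : ℝ) / 64, ((k x).2 : ℝ) / 64⟩ := by
    intro x
    apply Complex.ext
    · simp only [hk, rd, Complex.sub_re, Complex.add_re]
      push_cast
      ring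
    · simp only [hk, rd, Complex.sub_im, Complex.add_im]
      push_cast
      ring
  have hmaps : ∀ x ∈ S, k x ∈ F := by
    intro x hx
    rw [hS, Finset.mem_filter] at hx
    have h1 : ‖rd x.1.1 + rd x.1.2 - (rd x.2.1 + rd x.2.2)‖ ≤ 1 + 4 / 64 := by
      have e : rd x.1.1 + rd x.1.2 - (rd x.2.1 + rd x.2.2) =
          (x.1.1 + x.1.2 - (x.2.1 + x.2.2)) + ((rd x.1.1 - x.1.1) + (rd x.1.2 - x.1.2) -
            ((rd x.2.1 - x.2.1) + (rd x.2.2 - x.2.2))) := by ring
      rw [e]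
      refine (norm_add_le _ _).trans ?_
      have h2 := norm_sub_le ((rd x.1.1 - x.1.1) + (rd x.1.2 - x.1.2))
        ((rd x.2.1 - x.2.1) + (rd x.2.2 - x.2.2))
      have h3 := norm_add_le (rd x.1.1 - x.1.1) (rd x.1.2 - x.1.2)
      have h4 := norm_add_le (rd x.2.1 - x.2.1) (rd x.2.2 - x.2.2)
      have h5 := norm_rd_sub_le x.1.1
      have h6 := norm_rd_sub_le x.1.2
      have h7 := norm_rd_sub_le x.2.1
      have h8 := norm_rd_sub_le x.2.2
      linarith [hx.2]
    rw [hre] at h1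
    have key : ∀ m : ℤ, |(m : ℝ) / 64| ≤ 1 + 4 / 64 → -68 ≤ m ∧ m ≤ 68 := by
      intro m hm
      rw [abs_le] at hm
      have h2 : (-68 : ℝ) ≤ m := by linarith [hm.1]
      have h3 : (m : ℝ) ≤ 68 := by linarith [hm.2]
      exact ⟨by exact_mod_cast h2, by exact_mod_cast h3⟩
    have h2 := key (k x).1 ((Complex.abs_re_le_norm _).trans h1)
    have h3 := key (k x).2 ((Complex.abs_im_le_norm _).trans h1)
    rw [hF, Finset.mem_product, Finset.mem_Icc, Finset.mem_Icc]
    exact ⟨h2, h3⟩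
  rw [Finset.card_eq_sum_card_fiberwise (f := k) (t := F)
    (fun x hx => Finset.mem_coe.2 (hmaps x (Finset.mem_coe.1 hx)))]
  calc ∑ b ∈ F, #{x ∈ S | k x = b} ≤ ∑ b ∈ F, en (A.image rd) := by
        apply Finset.sum_le_sum
        intro b _
        refine le_trans ?_ (shifted_energy_le (A.image rd) ⟨(b.1 : ℝ) / 64, (b.2 : ℝ) / 64⟩)
        apply Finset.card_le_card_of_injOn
          (fun x => ((rd x.1.1, rd x.1.2), (rd x.2.1, rd x.2.2)))
        · intro x hx
          rw [Finset.mem_coe, Finset.mem_filter, hS, Finset.mem_filter, Finset.mem_product,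
            Finset.mem_product, Finset.mem_product] at hx
          obtain ⟨⟨⟨⟨ha, hb⟩, hc, hd⟩, -⟩, hkx⟩ := hx
          have e0 := hre x
          rw [hkx] at e0
          exact Finset.mem_coe.2 (Finset.mem_filter.2 ⟨Finset.mem_product.2
            ⟨Finset.mem_product.2 ⟨Finset.mem_image_of_mem _ ha, Finset.mem_image_of_mem _ hb⟩,
             Finset.mem_product.2 ⟨Finset.mem_image_of_mem _ hc, Finset.mem_image_of_mem _ hd⟩⟩,
            e0⟩)
        · intro x hx y hy hxy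
          rw [Finset.mem_coe, Finset.mem_filter, hS, Finset.mem_filter, Finset.mem_product,
            Finset.mem_product, Finset.mem_product] at hx hy
          simp only [Prod.mk.injEq] at hxy
          exact Prod.ext (Prod.ext (hinj hx.1.1.1.1 hy.1.1.1.1 hxy.1.1)
            (hinj hx.1.1.1.2 hy.1.1.1.2 hxy.1.2)) (Prod.ext (hinj hx.1.1.2.1 hy.1.1.2.1 hxy.2.1)
            (hinj hx.1.1.2.2 hy.1.1.2.2 hxy.2.2))
    _ = 137 * 137 * en (A.image rd) := by
        have e : #F = 137 * 137 := by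
          rw [hF, Finset.card_product, Int.card_Icc]
          rfl
        rw [Finset.sum_const, smul_eq_mul, e]
    _ ≤ 20000 * en (A.image rd) := Nat.mul_le_mul_right _ (by omega)

end SepAdd
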