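import Pool.Agent.SepAdd.Defs

/-!
# From a bound for the number of pairs with a given difference to a bound for sets of small doubling
-/

set_option autoImplicit false

open Finset

namespace SepAdd

/-- Colouring and the Cauchy-Schwarz inequality. -/
lemma cs_color {α β γ : Type*} [DecidableEq β] [DecidableEq γ] (s : Finset α)
    (v : α → β) (c : α → γ) (T : Finset γ) (hc : ∀ x ∈ s, c x ∈ T) :
    #{x ∈ s ×ˢ s | v x.1 = v x.2} ≤ #T * #{x ∈ s ×ˢ s | v x.1 = v x.2 ∧ c x.1 = c x.2} := by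
  have h1 : #{x ∈ s ×ˢ s | v x.1 = v x.2} = ∑ b ∈ s.image v, #{x ∈ s | v x = b} ^ 2 := by
    rw [Finset.card_eq_sum_card_fiberwise (f := fun x : α × α => v x.1) (t := s.image v)]
    · apply Finset.sum_congr rfl
      intro b _
      rw [sq, ← Finset.card_product]
      congr 1
      ext x
      simp only [Finset.mem_filter, Finset.mem_product]
      constructor
      · rintro ⟨⟨⟨h1, h2⟩, h3⟩, h4⟩
        exact ⟨⟨h1, h4⟩, h2, h3.symm.trans h4⟩
      · rintro ⟨⟨h1, h2⟩, h3, h4⟩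
        exact ⟨⟨⟨h1, h3⟩, h2.trans h4.symm⟩, h2⟩
    · intro x hx
      rw [Finset.mem_coe, Finset.mem_filter, Finset.mem_product] at hx
      exact Finset.mem_coe.2 (Finset.mem_image_of_mem v hx.1.1)
  have h2 : #{x ∈ s ×ˢ s | v x.1 = v x.2 ∧ c x.1 = c x.2} =
      ∑ b ∈ s.image v, ∑ t ∈ T, #{x ∈ s | v x = b ∧ c x = t} ^ 2 := by
    rw [← Finset.sum_product',
      Finset.card_eq_sum_card_fiberwise (f := fun x : α × α => (v x.1, c x.1)) (t := s.image v ×ˢ T)]
    · apply Finset.sum_congr rfl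
      intro b _
      rw [sq, ← Finset.card_product]
      congr 1
      ext x
      simp only [Finset.mem_filter, Finset.mem_product, Prod.ext_iff]
      constructor
      · rintro ⟨⟨⟨h1, h2⟩, h3, h4⟩, h5, h6⟩
        exact ⟨⟨h1, h5, h6⟩, h2, h3.symm.trans h5, h4.symm.trans h6⟩
      · rintro ⟨⟨h1, h2, h3⟩, h4, h5, h6⟩
        exact ⟨⟨⟨h1, h4⟩, h2.trans h5.symm, h3.trans h6.symm⟩, h2, h3⟩
    · intro x hx
      rw [Finset.mem_coe, Finset.mem_filter, Finset.mem_product] at hx
      exact Finset.mem_coe.2 (Finset.mem_product.2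
        ⟨Finset.mem_image_of_mem v hx.1.1, hc _ hx.1.1⟩)
  rw [h1, h2, Finset.mul_sum]
  apply Finset.sum_le_sum
  intro b _
  have h3 : #{x ∈ s | v x = b} = ∑ t ∈ T, #{x ∈ s | v x = b ∧ c x = t} := by
    rw [Finset.card_eq_sum_card_fiberwise (f := c) (t := T)]
    · apply Finset.sum_congr rfl
      intro t _
      rw [Finset.filter_filter]
    · intro x hx
      rw [Finset.mem_coe, Finset.mem_filter] at hx
      exact Finset.mem_coe.2 (hc x hx.1)
  rw [h3]
  exact sq_sum_le_card_mul_sum_sq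

open Classical in
lemma en_eq_sum {G : Type*} [AddCommGroup G] (B : Finset G) :
    en B = ∑ p ∈ B ×ˢ B, rep B (p.1 - p.2) := by
  unfold en rep
  rw [Finset.card_eq_sum_card_fiberwise (f := fun x : (G × G) × (G × G) => x.1) (t := B ×ˢ B)]
  · apply Finset.sum_congr rfl
    intro p hp
    refine Finset.card_bij' (fun x _ => x.2) (fun q _ => (p, q)) ?_ ?_ ?_ ?_
    · intro x hx
      simp only [Finset.mem_filter, Finset.mem_product] at hx ⊢
      refine ⟨hx.1.1.2, ?_⟩
      rw [← hx.2]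
      exact hx.1.2.symm
    · intro q hq
      simp only [Finset.mem_filter, Finset.mem_product] at hq hp ⊢
      exact ⟨⟨⟨hp, hq.1⟩, hq.2.symm⟩, trivial⟩
    · intro x hx
      simp only [Finset.mem_filter] at hx
      exact Prod.ext hx.2.symm rfl
    · intro q _
      rfl
  · intro x hx
    rw [Finset.mem_coe, Finset.mem_filter, Finset.mem_product] at hx
    exact hx.1.1

open Classical in
lemma card_pow_four_le {G : Type*} [AddCommGroup G] (B : Finset G) : #B ^ 4 ≤ dd B * en B := by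
  have h := cs_color (B ×ˢ B) (fun _ => ()) (fun p => p.1 - p.2)
    ((B ×ˢ B).image fun p => p.1 - p.2) (fun x hx => Finset.mem_image_of_mem _ hx)
  simp only [Finset.filter_true, true_and, Finset.card_product] at h
  unfold dd en
  calc #B ^ 4 = #B * #B * (#B * #B) := by ring
    _ ≤ _ := h

lemma rep_zero {G : Type*} [AddCommGroup G] (B : Finset G) : rep B 0 = #B := by
  classical
  unfold rep
  refine Finset.card_bij' (fun p _ => p.1) (fun b _ => (b, b)) ?_ ?_ ?_ ?_
  · intro p hp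
    exact (Finset.mem_product.1 (Finset.mem_filter.1 hp).1).1
  · intro b hb
    simp [hb]
  · intro p hp
    have := (Finset.mem_filter.1 hp).2
    exact Prod.ext rfl (sub_eq_zero.1 this)
  · intro b _
    rfl

lemma rep_le {G : Type*} [AddCommGroup G] (B : Finset G) (d : G) : rep B d ≤ #B := by
  classical
  unfold rep
  apply Finset.card_le_card_of_injOn (fun p => p.1)
  · intro p hp
    exact (Finset.mem_product.1 (Finset.mem_filter.1 hp).1).1
  · intro p hp q hq hpq
    have hpq' : p.1 = q.1 := hpq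
    have e1 := (Finset.mem_filter.1 hp).2
    have e2 := (Finset.mem_filter.1 hq).2
    rw [hpq'] at e1
    exact Prod.ext hpq' (sub_right_injective (e1.trans e2.symm))

lemma card_le_dd {G : Type*} [AddCommGroup G] (B : Finset G) : #B ≤ dd B := by
  classical
  rcases B.eq_empty_or_nonempty with rfl | ⟨b, hb⟩
  · simp
  · unfold dd
    apply Finset.card_le_card_of_injOn (fun x => x - b)
    · intro x hx
      exact Finset.mem_coe.2 (Finset.mem_image.2 ⟨(x, b), Finset.mem_product.2 ⟨hx, hb⟩, rfl⟩)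
    · intro x _ y _ hxy
      exact sub_left_injective hxy

/-- A maximal separated subset. -/
lemma exists_maximal_sep (B : Finset ℂ) (σ : ℝ) : ∃ S ⊆ B,
    (∀ x ∈ S, ∀ y ∈ S, x ≠ y → σ ≤ ‖x - y‖) ∧ ∀ x ∈ B, x ∉ S → ∃ a ∈ S, ‖x - a‖ < σ := by
  classical
  obtain ⟨S, hS, hmax⟩ := Finset.exists_max_image
    (B.powerset.filter fun S => ∀ x ∈ S, ∀ y ∈ S, x ≠ y → σ ≤ ‖x - y‖) (fun S => S.card)
    ⟨∅, by simp⟩
  rw [Finset.mem_filter, Finset.mem_powerset] at hS
  refine ⟨S, hS.1, hS.2, fun x hx hxS => ?_⟩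
  by_contra hcon
  push Not at hcon
  have h1 := hmax (insert x S) (by
    rw [Finset.mem_filter, Finset.mem_powerset]
    refine ⟨Finset.insert_subset hx hS.1, ?_⟩
    intro y hy z hz hyz
    rw [Finset.mem_insert] at hy hz
    rcases hy with rfl | hy <;> rcases hz with rfl | hz
    · exact absurd rfl hyz
    · exact hcon z hz
    · rw [norm_sub_rev]; exact hcon y hy
    · exact hS.2 y hy z hz hyz)
  rw [Finset.card_insert_of_notMem hxS] at h1
  omega

/-- Small sets and separated sets. -/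
lemma card_mul_card_le {B S T : Finset ℂ} {σ : ℝ} (hS : S ⊆ B) (hT : T ⊆ B)
    (h1 : ∀ x ∈ S, ∀ y ∈ S, x ≠ y → σ ≤ ‖x - y‖) (h2 : ∀ x ∈ T, ∀ y ∈ T, ‖x - y‖ < σ) :
    #T * #S ≤ dd B := by
  classical
  unfold dd
  rw [← Finset.card_product]
  apply Finset.card_le_card_of_injOn (fun p => p.2 - p.1)
  · intro p hp
    rw [Finset.mem_coe, Finset.mem_product] at hp
    exact Finset.mem_coe.2 (Finset.mem_image.2
      ⟨(p.2, p.1), Finset.mem_product.2 ⟨hS hp.2, hT hp.1⟩, rfl⟩)
  · intro p hp q hq hpq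
    rw [Finset.mem_coe, Finset.mem_product] at hp hq
    have e : p.2 - p.1 = q.2 - q.1 := hpq
    have e1 : p.2 - q.2 = p.1 - q.1 := by linear_combination e
    have e2 := h2 p.1 hp.1 q.1 hq.1
    have e3 : p.2 = q.2 := by
      by_contra hne
      have := h1 p.2 hp.2 q.2 hq.2 hne
      rw [e1] at this
      linarith
    have e4 : p.1 = q.1 := by
      rw [e3, sub_self] at e1
      exact (sub_eq_zero.1 e1.symm)
    exact Prod.ext e4 e3

/-- A disc of radius `2σ` meets `B` in few points if small sets do. -/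
lemma card_disc_le {B : Finset ℂ} {σ : ℝ} (hσ : 0 < σ) {m : ℕ}
    (hm : ∀ T ⊆ B, (∀ x ∈ T, ∀ y ∈ T, ‖x - y‖ < σ) → #T ≤ m) (x : ℂ) :
    #{y ∈ B | ‖x - y‖ < 2 * σ} ≤ m * 64 := by
  classical
  set f : ℂ → ℤ × ℤ := fun y => (⌊2 * (y - x).re / σ⌋, ⌊2 * (y - x).im / σ⌋) with hf
  have h1 := Finset.card_le_mul_card_image (f := f) {y ∈ B | ‖x - y‖ < 2 * σ} m (by
    intro b _
    apply hm
    · exact (Finset.filter_subset _ _).trans (Finset.filter_subset _ _)
    · intro y hy z hz
      rw [Finset.mem_filter] at hy hz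
      have e := hy.2.trans hz.2.symm
      rw [hf] at e
      simp only [Prod.mk.injEq] at e
      have e1 := Int.abs_sub_lt_one_of_floor_eq_floor e.1
      have e2 := Int.abs_sub_lt_one_of_floor_eq_floor e.2
      have e3 : 2 * (y - x).re / σ - 2 * (z - x).re / σ = 2 * (y - z).re / σ := by
        simp only [Complex.sub_re]; ring
      have e4 : 2 * (y - x).im / σ - 2 * (z - x).im / σ = 2 * (y - z).im / σ := by
        simp only [Complex.sub_im]; ring
      rw [e3, abs_div, abs_mul, abs_of_pos hσ, div_lt_one hσ] at e1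
      rw [e4, abs_div, abs_mul, abs_of_pos hσ, div_lt_one hσ] at e2
      rw [abs_of_pos (by norm_num : (0 : ℝ) < 2)] at e1 e2
      have e5 : ‖y - z‖ ^ 2 < σ ^ 2 := by
        rw [Complex.sq_norm, Complex.normSq_apply]
        have h3 : (y - z).re * (y - z).re = |(y - z).re| * |(y - z).re| := (abs_mul_abs_self _).symm
        have h4 : (y - z).im * (y - z).im = |(y - z).im| * |(y - z).im| := (abs_mul_abs_self _).symm
        rw [h3, h4]
        nlinarith [abs_nonneg (y - z).re, abs_nonneg (y - z).im]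
      exact lt_of_pow_lt_pow_left₀ 2 hσ.le e5)
  refine h1.trans (Nat.mul_le_mul_left m ?_)
  have h2 : (Finset.image f {y ∈ B | ‖x - y‖ < 2 * σ}) ⊆ Finset.Icc (-4) 3 ×ˢ Finset.Icc (-4) 3 := by
    intro k hk
    obtain ⟨y, hy, rfl⟩ := Finset.mem_image.1 hk
    have hy2 := (Finset.mem_filter.1 hy).2
    rw [norm_sub_rev] at hy2
    have e1 := (Complex.abs_re_le_norm (y - x)).trans_lt hy2
    have e2 := (Complex.abs_im_le_norm (y - x)).trans_lt hy2
    rw [abs_lt] at e1 e2
    rw [Finset.mem_product, Finset.mem_Icc, Finset.mem_Icc]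
    have key : ∀ t : ℝ, -(2 * σ) < t → t < 2 * σ → -4 ≤ ⌊2 * t / σ⌋ ∧ ⌊2 * t / σ⌋ ≤ 3 := by
      intro t ht1 ht2
      constructor
      · rw [Int.le_floor]
        push_cast
        rw [le_div_iff₀ hσ]
        linarith
      · have : ⌊2 * t / σ⌋ < 4 := by
          rw [Int.floor_lt]
          push_cast
          rw [div_lt_iff₀ hσ]
          linarith
        omega
    exact ⟨key _ e1.1 e1.2, key _ e2.1 e2.2⟩
  have h3 := Finset.card_le_card h2
  rw [Finset.card_product] at h3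
  simpa using h3

open Classical in
theorem doubling {B : Finset ℂ} {D : ℝ} (hD1 : 1 ≤ D)
    (hc : ∀ d : ℂ, d ≠ 0 → ∀ M : ℝ, (∀ S ⊆ B, (∀ x ∈ S, ∀ y ∈ S, ‖x - y‖ < ‖d‖ / 2) →
      (S.card : ℝ) ≤ M) → (rep B d : ℝ) ≤ 300 * D * M) :
    (B.card : ℝ) ^ 5 ≤ 10 ^ 6 * (dd B : ℝ) ^ 4 * D := by
  rcases B.eq_empty_or_nonempty with hBe | hBne
  · rw [hBe]
    simp only [Finset.card_empty, Nat.cast_zero, ne_eq, OfNat.ofNat_ne_zero, not_false_eq_true,
      zero_pow]
    positivity
  set m : ℝ := (B.card : ℝ) with hm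
  set Δ : ℝ := (dd B : ℝ) with hΔ
  have hm1 : 1 ≤ m := by
    have := Finset.card_pos.2 hBne
    rw [hm]
    exact_mod_cast this
  have hmΔ : m ≤ Δ := by
    rw [hm, hΔ]
    exact_mod_cast card_le_dd B
  have hrepm : ∀ d : ℂ, (rep B d : ℝ) ≤ m := by
    intro d
    rw [hm]
    exact_mod_cast rep_le B d
  have hΔ1 : 1 ≤ Δ := hm1.trans hmΔ
  have hm0 : 0 < m := by linarith
  have hΔ0 : 0 < Δ := by linarith
  rcases le_or_gt (m ^ 2) (2 * Δ) with hcase | hcase
  · have e1 : m ^ 5 ≤ Δ * (2 * Δ) ^ 2 := by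
      calc m ^ 5 = m * (m ^ 2) ^ 2 := by ring
        _ ≤ Δ * (2 * Δ) ^ 2 := by gcongr
    have e2 : Δ * (2 * Δ) ^ 2 ≤ 4 * Δ ^ 4 := by
      have : Δ ^ 3 ≤ Δ ^ 4 := pow_le_pow_right₀ hΔ1 (by norm_num)
      nlinarith
    calc m ^ 5 ≤ 4 * Δ ^ 4 := e1.trans e2
      _ ≤ 10 ^ 6 * Δ ^ 4 * 1 := by nlinarith [pow_pos hΔ0 4]
      _ ≤ 10 ^ 6 * Δ ^ 4 * D := by gcongr
  -- the energy
  have hE4 : m ^ 4 ≤ Δ * en B := by
    have := card_pow_four_le B
    rw [hm, hΔ]
    exact_mod_cast this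
  set τ : ℝ := m ^ 3 / (128 * Δ ^ 2) with hτ
  have hτ0 : 0 < τ := by positivity
  -- the popular differences
  set P : Finset ℂ := ((B ×ˢ B).image fun p => p.1 - p.2).filter
    fun d => d ≠ 0 ∧ τ < (rep B d : ℝ) with hP
  have hPne : P.Nonempty := by
    by_contra hPe
    rw [Finset.not_nonempty_iff_eq_empty] at hPe
    have h1 : ∀ p ∈ B ×ˢ B, p.1 ≠ p.2 → (rep B (p.1 - p.2) : ℝ) ≤ τ := by
      intro p hp hne
      by_contra hcon
      push Not at hcon
      have : p.1 - p.2 ∈ P := by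
        rw [hP, Finset.mem_filter]
        exact ⟨Finset.mem_image.2 ⟨p, hp, rfl⟩, sub_ne_zero.2 hne, hcon⟩
      rw [hPe] at this
      simp at this
    have h2 : (en B : ℝ) ≤ m ^ 2 + m ^ 2 * τ := by
      rw [en_eq_sum]
      push_cast
      rw [← Finset.sum_filter_add_sum_filter_not (B ×ˢ B) (fun p => p.1 = p.2)]
      apply add_le_add
      · calc ∑ p ∈ B ×ˢ B with p.1 = p.2, (rep B (p.1 - p.2) : ℝ)
            ≤ ∑ p ∈ B ×ˢ B with p.1 = p.2, m := by
              apply Finset.sum_le_sum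
              intro p _
              exact hrepm _
          _ = (#{p ∈ B ×ˢ B | p.1 = p.2} : ℝ) * m := by rw [Finset.sum_const, nsmul_eq_mul]
          _ = m * m := by
              have e1 : #{p ∈ B ×ˢ B | p.1 = p.2} = #B := by
                have := rep_zero B
                unfold rep at this
                simpa [sub_eq_zero] using this
              rw [e1]
          _ = m ^ 2 := by ring
      · calc ∑ p ∈ B ×ˢ B with ¬ p.1 = p.2, (rep B (p.1 - p.2) : ℝ)
            ≤ ∑ p ∈ B ×ˢ B with ¬ p.1 = p.2, τ := by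
              apply Finset.sum_le_sum
              intro p hp
              rw [Finset.mem_filter] at hp
              exact h1 p hp.1 hp.2
          _ = (#{p ∈ B ×ˢ B | ¬ p.1 = p.2} : ℝ) * τ := by rw [Finset.sum_const, nsmul_eq_mul]
          _ ≤ m ^ 2 * τ := by
              apply mul_le_mul_of_nonneg_right _ hτ0.le
              have : #{p ∈ B ×ˢ B | ¬ p.1 = p.2} ≤ #B * #B := by
                rw [← Finset.card_product]
                exact Finset.card_filter_le _ _
              have h3 : (#{p ∈ B ×ˢ B | ¬ p.1 = p.2} : ℝ) ≤ (#B : ℝ) * #B := by exact_mod_cast this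
              rw [sq]
              exact h3
    have h3 : m ^ 4 ≤ Δ * (m ^ 2 + m ^ 2 * τ) := hE4.trans (by gcongr)
    have h4 : Δ * (m ^ 2 * τ) = m ^ 5 / (128 * Δ) := by
      rw [hτ]; field_simp
    have h5 : m ^ 5 / (128 * Δ) ≤ m ^ 4 / 128 := by
      rw [div_le_div_iff₀ (by positivity) (by norm_num)]
      nlinarith [pow_pos hm0 4]
    have h6 : m ^ 2 * m ^ 2 ≤ Δ * m ^ 2 + m ^ 4 / 128 := by nlinarith
    have h7 : 0 < m ^ 2 := by positivity
    nlinarith
  obtain ⟨d, hd, hmin⟩ := Finset.exists_min_image P (fun d => ‖d‖) hPne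
  have hd' := hd
  rw [hP, Finset.mem_filter] at hd
  obtain ⟨-, hd0, hdτ⟩ := hd
  set ρ := ‖d‖ with hρ
  have hρ0 : 0 < ρ := norm_pos_iff.2 hd0
  -- unpopular short differences
  have hshort : ∀ p ∈ B ×ˢ B, p.1 ≠ p.2 → ‖p.1 - p.2‖ < ρ → (rep B (p.1 - p.2) : ℝ) ≤ τ := by
    intro p hp hne hlt
    by_contra hcon
    push Not at hcon
    have : p.1 - p.2 ∈ P := by
      rw [hP, Finset.mem_filter]
      exact ⟨Finset.mem_image.2 ⟨p, hp, rfl⟩, sub_ne_zero.2 hne, hcon⟩
    have := hmin _ this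
    linarith
  obtain ⟨S, hSB, hSsep, hSmax⟩ := exists_maximal_sep B (ρ / 2)
  have hSne : S.Nonempty := by
    obtain ⟨b, hb⟩ := hBne
    by_cases hbS : b ∈ S
    · exact ⟨b, hbS⟩
    · obtain ⟨a, ha, -⟩ := hSmax b hb hbS
      exact ⟨a, ha⟩
  set N : ℝ := (S.card : ℝ) with hN
  have hN0 : 0 < N := by
    have := Finset.card_pos.2 hSne
    rw [hN]
    exact_mod_cast this
  have hsmall : ∀ T ⊆ B, (∀ x ∈ T, ∀ y ∈ T, ‖x - y‖ < ρ / 2) → (T.card : ℝ) ≤ Δ / N := by
    intro T hT hT2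
    rw [le_div_iff₀ hN0]
    have := card_mul_card_le hSB hT hSsep hT2
    rw [hN, hΔ]
    exact_mod_cast this
  -- classes
  have hclass : ∀ x : ℂ, ∃ a : ℂ, x ∈ B → a ∈ S ∧ ‖x - a‖ < ρ / 2 := by
    intro x
    by_cases hx : x ∈ S
    · exact ⟨x, fun _ => ⟨hx, by rw [sub_self, norm_zero]; linarith⟩⟩
    · by_cases hxB : x ∈ B
      · obtain ⟨a, ha, hxa⟩ := hSmax x hxB hx
        exact ⟨a, fun _ => ⟨ha, hxa⟩⟩
      · exact ⟨0, fun h => absurd h hxB⟩
  choose cl hcl using hclass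
  have henN : (en B : ℝ) ≤ N * (#{x ∈ (B ×ˢ B) ×ˢ (B ×ˢ B) |
      x.1.1 - x.1.2 = x.2.1 - x.2.2 ∧ ‖x.1.1 - x.2.1‖ < ρ} : ℝ) := by
    have h1 := cs_color (B ×ˢ B) (fun p => p.1 - p.2) (fun p => cl p.1) S
      (fun p hp => (hcl p.1 (Finset.mem_product.1 hp).1).1)
    have h2 : #{x ∈ (B ×ˢ B) ×ˢ (B ×ˢ B) | x.1.1 - x.1.2 = x.2.1 - x.2.2 ∧ cl x.1.1 = cl x.2.1} ≤
        #{x ∈ (B ×ˢ B) ×ˢ (B ×ˢ B) | x.1.1 - x.1.2 = x.2.1 - x.2.2 ∧ ‖x.1.1 - x.2.1‖ < ρ} := by
      apply Finset.card_le_card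
      intro x hx
      rw [Finset.mem_filter] at hx ⊢
      refine ⟨hx.1, hx.2.1, ?_⟩
      rw [Finset.mem_product, Finset.mem_product, Finset.mem_product] at hx
      have e1 := (hcl x.1.1 hx.1.1.1).2
      have e2 := (hcl x.2.1 hx.1.2.1).2
      rw [← hx.2.2] at e2
      have e3 : x.1.1 - x.2.1 = (x.1.1 - cl x.1.1) - (x.2.1 - cl x.1.1) := by ring
      rw [e3]
      refine (norm_sub_le _ _).trans_lt ?_
      linarith
    have h3 := h1.trans (Nat.mul_le_mul_left _ h2)
    rw [hN]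
    unfold en
    exact_mod_cast h3
  have hquad : (#{x ∈ (B ×ˢ B) ×ˢ (B ×ˢ B) |
      x.1.1 - x.1.2 = x.2.1 - x.2.2 ∧ ‖x.1.1 - x.2.1‖ < ρ} : ℝ) ≤
      m ^ 2 + τ * (m * (Δ / N * 64)) := by
    have h1 : #{x ∈ (B ×ˢ B) ×ˢ (B ×ˢ B) |
        x.1.1 - x.1.2 = x.2.1 - x.2.2 ∧ ‖x.1.1 - x.2.1‖ < ρ} =
        ∑ p ∈ B ×ˢ B with ‖p.1 - p.2‖ < ρ, rep B (p.1 - p.2) := by
      unfold rep
      rw [Finset.card_eq_sum_card_fiberwise
        (f := fun x : (ℂ × ℂ) × (ℂ × ℂ) => (x.1.1, x.2.1))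
        (t := (B ×ˢ B).filter fun p => ‖p.1 - p.2‖ < ρ)]
      · apply Finset.sum_congr rfl
        intro p hp
        refine Finset.card_bij' (fun x _ => (x.1.2, x.2.2)) (fun q _ => ((p.1, q.1), (p.2, q.2))) ?_ ?_ ?_ ?_
        · intro x hx
          simp only [Finset.mem_filter, Finset.mem_product, Prod.ext_iff] at hx ⊢
          refine ⟨⟨hx.1.1.1.2, hx.1.1.2.2⟩, ?_⟩
          rw [← hx.2.1, ← hx.2.2]
          linear_combination -hx.1.2.1
        · intro q hq
          simp only [Finset.mem_filter, Finset.mem_product] at hq hp ⊢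
          refine ⟨⟨⟨⟨hp.1.1, hq.1.1⟩, hp.1.2, hq.1.2⟩, ?_, hp.2⟩, trivial⟩
          linear_combination -hq.2
        · intro x hx
          simp only [Finset.mem_filter, Prod.ext_iff] at hx
          exact Prod.ext (Prod.ext hx.2.1.symm rfl) (Prod.ext hx.2.2.symm rfl)
        · intro q _
          rfl
      · intro x hx
        rw [Finset.mem_coe, Finset.mem_filter, Finset.mem_product, Finset.mem_product,
          Finset.mem_product] at hx
        rw [Finset.mem_coe, Finset.mem_filter, Finset.mem_product]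
        exact ⟨⟨hx.1.1.1, hx.1.2.1⟩, hx.2.2⟩
    rw [h1]
    push_cast
    rw [← Finset.sum_filter_add_sum_filter_not ((B ×ˢ B).filter fun p => ‖p.1 - p.2‖ < ρ)
      (fun p => p.1 = p.2)]
    apply add_le_add
    · calc ∑ p ∈ ((B ×ˢ B).filter fun p => ‖p.1 - p.2‖ < ρ).filter fun p => p.1 = p.2,
            (rep B (p.1 - p.2) : ℝ)
          ≤ ∑ p ∈ ((B ×ˢ B).filter fun p => ‖p.1 - p.2‖ < ρ).filter fun p => p.1 = p.2, m := by
            apply Finset.sum_le_sum
            intro p _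
            exact hrepm _
        _ = (#(((B ×ˢ B).filter fun p => ‖p.1 - p.2‖ < ρ).filter fun p => p.1 = p.2) : ℝ) * m := by
            rw [Finset.sum_const, nsmul_eq_mul]
        _ ≤ m * m := by
            apply mul_le_mul_of_nonneg_right _ hm0.le
            have e1 : #(((B ×ˢ B).filter fun p => ‖p.1 - p.2‖ < ρ).filter fun p => p.1 = p.2) ≤
                #{p ∈ B ×ˢ B | p.1 - p.2 = 0} := by
              apply Finset.card_le_card
              intro p hp
              rw [Finset.mem_filter, Finset.mem_filter] at hp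
              rw [Finset.mem_filter]
              exact ⟨hp.1.1, sub_eq_zero.2 hp.2⟩
            have e2 := rep_zero B
            unfold rep at e2
            rw [e2] at e1
            rw [hm]
            exact_mod_cast e1
        _ = m ^ 2 := by ring
    · calc ∑ p ∈ ((B ×ˢ B).filter fun p => ‖p.1 - p.2‖ < ρ).filter fun p => ¬ p.1 = p.2,
            (rep B (p.1 - p.2) : ℝ)
          ≤ ∑ p ∈ ((B ×ˢ B).filter fun p => ‖p.1 - p.2‖ < ρ).filter fun p => ¬ p.1 = p.2, τ := by
            apply Finset.sum_le_sum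
            intro p hp
            rw [Finset.mem_filter, Finset.mem_filter] at hp
            exact hshort p hp.1.1 hp.2 hp.1.2
        _ = (#(((B ×ˢ B).filter fun p => ‖p.1 - p.2‖ < ρ).filter fun p => ¬ p.1 = p.2) : ℝ) * τ := by
            rw [Finset.sum_const, nsmul_eq_mul]
        _ ≤ (m * (Δ / N * 64)) * τ := by
            apply mul_le_mul_of_nonneg_right _ hτ0.le
            have e1 : #(((B ×ˢ B).filter fun p => ‖p.1 - p.2‖ < ρ).filter fun p => ¬ p.1 = p.2) ≤
                #((B ×ˢ B).filter fun p => ‖p.1 - p.2‖ < ρ) := Finset.card_filter_le _ _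
            have e2 : #((B ×ˢ B).filter fun p => ‖p.1 - p.2‖ < ρ) =
                ∑ x ∈ B, #{y ∈ B | ‖x - y‖ < ρ} := by
              rw [Finset.card_eq_sum_card_fiberwise (f := fun p : ℂ × ℂ => p.1) (t := B)]
              · apply Finset.sum_congr rfl
                intro x hx
                refine Finset.card_bij' (fun p _ => p.2) (fun y _ => (x, y)) ?_ ?_ ?_ ?_
                · intro p hp
                  simp only [Finset.mem_filter, Finset.mem_product] at hp ⊢
                  rw [← hp.2]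
                  exact ⟨hp.1.1.2, hp.1.2⟩
                · intro y hy
                  simp only [Finset.mem_filter, Finset.mem_product] at hy ⊢
                  exact ⟨⟨⟨hx, hy.1⟩, hy.2⟩, trivial⟩
                · intro p hp
                  simp only [Finset.mem_filter] at hp
                  exact Prod.ext hp.2.symm rfl
                · intro y _
                  rfl
              · intro p hp
                rw [Finset.mem_coe, Finset.mem_filter, Finset.mem_product] at hp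
                exact hp.1.1
            have e3 : ∀ x ∈ B, (#{y ∈ B | ‖x - y‖ < ρ} : ℝ) ≤ Δ / N * 64 := by
              intro x _
              have e4 := card_disc_le (B := B) (σ := ρ / 2) (by positivity) (m := ⌊Δ / N⌋₊)
                (fun T hT hT2 => Nat.le_floor (hsmall T hT hT2)) x
              have e5 : 2 * (ρ / 2) = ρ := by ring
              rw [e5] at e4
              have e6 : (#{y ∈ B | ‖x - y‖ < ρ} : ℝ) ≤ (⌊Δ / N⌋₊ : ℝ) * 64 := by exact_mod_cast e4
              refine e6.trans ?_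
              have := Nat.floor_le (by positivity : 0 ≤ Δ / N)
              gcongr
            have e7 : (#((B ×ˢ B).filter fun p => ‖p.1 - p.2‖ < ρ) : ℝ) ≤ m * (Δ / N * 64) := by
              rw [e2]
              push_cast
              calc ∑ x ∈ B, (#{y ∈ B | ‖x - y‖ < ρ} : ℝ) ≤ ∑ x ∈ B, (Δ / N * 64) :=
                    Finset.sum_le_sum e3
                _ = _ := by rw [Finset.sum_const, nsmul_eq_mul]
            refine le_trans ?_ e7
            exact_mod_cast e1
        _ = τ * (m * (Δ / N * 64)) := by ring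
  -- many classes
  have hNm : m ^ 2 ≤ 2 * Δ * N := by
    have h1 : m ^ 4 ≤ Δ * (N * (m ^ 2 + τ * (m * (Δ / N * 64)))) :=
      hE4.trans (mul_le_mul_of_nonneg_left (henN.trans (by gcongr)) hΔ0.le)
    have h2 : Δ * (N * (m ^ 2 + τ * (m * (Δ / N * 64)))) = Δ * N * m ^ 2 + m ^ 4 / 2 := by
      rw [hτ]
      field_simp
      ring
    rw [h2] at h1
    have h3 : m ^ 2 * m ^ 2 ≤ 2 * Δ * N * m ^ 2 := by nlinarith
    exact le_of_mul_le_mul_right h3 (by positivity)
  have hfin := hc d hd0 (Δ / N) hsmall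
  have h1 : m ^ 3 / (128 * Δ ^ 2) < 300 * D * (Δ / N) := lt_of_lt_of_le hdτ hfin
  have h2 : Δ / N ≤ 2 * Δ ^ 2 / m ^ 2 := by
    rw [div_le_div_iff₀ hN0 (by positivity)]
    nlinarith
  have h3 : m ^ 3 / (128 * Δ ^ 2) < 300 * D * (2 * Δ ^ 2 / m ^ 2) :=
    lt_of_lt_of_le h1 (by gcongr)
  have h4 : 300 * D * (2 * Δ ^ 2 / m ^ 2) = 600 * D * Δ ^ 2 / m ^ 2 := by ring
  rw [h4, div_lt_div_iff₀ (by positivity) (by positivity)] at h3
  have h5 : m ^ 5 ≤ 76800 * Δ ^ 4 * D := by nlinarith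
  refine h5.trans ?_
  have : 0 ≤ Δ ^ 4 * D := by positivity
  nlinarith

end SepAdd
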