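import Mathlib

/-!
# Distance-separated sets and additive energy: definitions
-/

set_option autoImplicit false

open Finset

namespace SepAdd

/-- Distinct distances of `A` differ by at least one. -/
def Sep (A : Finset ℂ) : Prop :=
  ∀ p₁ ∈ A, ∀ q₁ ∈ A, ∀ p₂ ∈ A, ∀ q₂ ∈ A, dist p₁ q₁ ≠ dist p₂ q₂ →
    1 ≤ |dist p₁ q₁ - dist p₂ q₂|

open Classical in
/-- The number of ordered pairs of elements of `B` with difference `d`. -/
noncomputable def rep {G : Type*} [AddCommGroup G] (B : Finset G) (d : G) : ℕ :=
  #{p ∈ B ×ˢ B | p.1 - p.2 = d}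

open Classical in
/-- The additive energy, as the number of pairs of pairs with equal differences. -/
noncomputable def en {G : Type*} [AddCommGroup G] (B : Finset G) : ℕ :=
  #{x ∈ (B ×ˢ B) ×ˢ (B ×ˢ B) | x.1.1 - x.1.2 = x.2.1 - x.2.2}

open Classical in
/-- The number of distinct differences. -/
noncomputable def dd {G : Type*} [AddCommGroup G] (B : Finset G) : ℕ :=
  #((B ×ˢ B).image fun p => p.1 - p.2)

end SepAdd
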